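import Pool.Agent.MP_151d89_pr.H27.Pair

/-!
The total drift of all towers inside a box is a null Lagrangian up to exits.
-/

set_option autoImplicit false
open MeasureTheory Finset

namespace Pool.Agent.MP_151d89_pr.H27
open Pool.Agent.MP_151d89_pr.H82 Pool.Agent.MP_151d89_pr.H33 Pool.Agent.MP_151d89_pr.H67
open Pool.Agent.MP_151d89_pr.H30
open Classical

theorem len_lt {n : ℕ} {b : Bool} {x : ℤ × ℤ} {l : ℕ} (h : nrm x ≤ n) (h' : nrm (pt b x l) ≤ n) :
    l < 2 * n + 1 := by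
  cases b <;> simp only [pt_true, pt_false, NullP.nrm_eq] at h h' <;> omega

theorem mem_II {n : ℕ} {m : Mv} : m ∈ II n ↔
    nrm m.2.1 ≤ n ∧ (m.1 = true ∨ 1 ≤ m.2.2) ∧ nrm (pt m.1 m.2.1 m.2.2) ≤ n := by
  simp only [II, mem_filter, mem_product, mem_univ, true_and, mem_range, mem_box0]
  exact ⟨fun h => ⟨h.1.1, h.2⟩, fun h => ⟨⟨h.1, len_lt h.1 h.2.2⟩, h.2⟩⟩

/-- a ridge leg from x leaves the box -/
def Ex (n : ℕ) (f : Conf) (x : ℤ × ℤ) : Prop := ∃ b l, Rdg b x l f ∧ (n : ℤ) < nrm (pt b x l)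

theorem av_rdg {b : Bool} {x : ℤ × ℤ} {l : ℕ} {f : Conf} (h : Av (-1) (b, x, l) f) {t : ℕ}
    (ht : t ≤ l) : Rdg b x t f := by
  obtain ⟨a1, a2, a3, -⟩ := NullP.av_facts h
  exact ⟨fun u hu => h.1 u (hu.trans ht), a1, a2, a3⟩

theorem rdg_one {b : Bool} {x : ℤ × ℤ} {l : ℕ} {f : Conf} (h : Rdg b x l f) (hl : 1 ≤ l) :
    f (x + dir b) = f x + 1 := by
  simpa [pt] using h.1 1 hl

theorem av_not_ex {n : ℕ} {m : Mv} {f : Conf} (hm : m ∈ II n) (h : Av (-1) m f) :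
    ¬ Ex n f m.2.1 := by
  obtain ⟨b, x, l⟩ := m
  rintro ⟨b', l', h1, h2⟩
  rw [mem_II] at hm
  dsimp only at hm h1 h2
  have h3 : 1 ≤ l' := by
    by_contra hc
    obtain rfl : l' = 0 := by omega
    rw [Nat.cast_zero, pt_zero] at h2
    omega
  have h4 := rdg_one h1 h3
  obtain ⟨-, a2, -, -⟩ := NullP.av_facts h
  obtain rfl : b' = b := by
    cases b <;> cases b' <;> simp only [Bool.not_true, Bool.not_false] at a2 ⊢ <;> omega
  have h5 : l < l' := by
    by_contra hc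
    have := nrm_conv b' x (t := l') (l := l) (by omega)
    omega
  have h6 := h1.1 (l + 1) h5
  have h7 : f (pt b' x (l + 1)) = f x + l + -1 := h.2.2.1
  push_cast at h6
  omega

theorem exists_av {n : ℕ} {f : Conf} (hf : Hom f) {b : Bool} {x : ℤ × ℤ} (hx : nrm x ≤ n)
    (he : ¬ Ex n f x) (h1 : f (x - dir b) = f x - 1)
    (h2 : f (x + dir (!b)) = f x - 1) (h3 : f (x - dir (!b)) = f x - 1)
    (h4 : b = true ∨ f (x + dir b) = f x + 1) :
    ∃ l, (b, x, l) ∈ II n ∧ Av (-1) (b, x, l) f := by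
  have hin : ∀ l : ℕ, Run b x l f → nrm (pt b x l) ≤ n := fun l h =>
    not_lt.1 fun hc => he ⟨b, l, ⟨h, h1, h2, h3⟩, hc⟩
  have hex : ∃ k : ℕ, ¬ Run b x (k + 1) f :=
    ⟨2 * n, fun h => lt_irrefl _ (len_lt hx (hin _ h))⟩
  have hrun : ∀ k : ℕ, k ≤ Nat.find hex → Run b x k f := by
    intro k hk
    cases k with
    | zero => intro t ht; obtain rfl : t = 0 := by omega
              simp [pt_zero]
    | succ k => exact not_not.1 (Nat.find_min hex (by omega))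
  have hl := hrun _ le_rfl
  have hend : f (pt b x ((Nat.find hex : ℕ) + 1)) = f x + (Nat.find hex : ℕ) + -1 := by
    have a1 := NullP.step hf b (pt b x (Nat.find hex : ℕ))
    rw [← NullP.pt_succ, hl _ le_rfl] at a1
    rcases a1 with a1 | a1
    · refine absurd (fun t ht => ?_) (Nat.find_spec hex)
      rcases Nat.lt_or_ge (Nat.find hex) t with a2 | a2
      · obtain rfl : t = Nat.find hex + 1 := by omega
        push_cast
        omega
      · exact hl t a2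
    · omega
  refine ⟨Nat.find hex, mem_II.2 ⟨hx, ?_, hin _ hl⟩, hl, ?_, hend,
    fun t ht => ⟨NullP.side hf hl (NullP.step hf _) h2 t ht, ?_⟩⟩
  · refine h4.imp id fun h4 => ?_
    by_contra hc
    have h0 : Nat.find hex = 0 := by dsimp only at hc; omega
    rw [h0, NullP.pt_succ] at hend
    simp only [Nat.cast_zero, pt_zero] at hend
    omega
  · have : pt b x (-1) = x - dir b := by simp [pt, sub_eq_add_neg]
    dsimp only
    rw [this, h1]
    ring
  · rw [sub_eq_add_neg] at h3 ⊢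
    exact NullP.side hf hl (NullP.step' hf _) h3 t ht

open NullP in
theorem ex_ws {n : ℕ} {f : Conf} {x : ℤ × ℤ} (h : Ex n f x) : WS f x ∧ ¬ EN f x := by
  obtain ⟨b, l, ⟨-, a1, a2, a3⟩, -⟩ := h
  cases b <;> simp only [WS, EN, Bool.not_true, Bool.not_false] at a2 a3 ⊢ <;> omega

open NullP in
theorem dn_sum {n : ℕ} {f : Conf} (hf : Hom f) : ∑ m ∈ II n, ind (Av (-1) m f) =
    ∑ x ∈ box 0 n, ind (WS f x ∧ ¬ EN f x) - ∑ x ∈ box 0 n, ind (Ex n f x) := by
  have e : ∀ x, ind (WS f x ∧ ¬ EN f x) - ind (Ex n f x) =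
      ind ((WS f x ∧ ¬ EN f x) ∧ ¬ Ex n f x) := fun x => by
    by_cases h : Ex n f x
    · rw [ind_pos h, ind_pos (ex_ws h), ind_neg fun h' => h'.2 h, sub_self]
    · rw [ind_neg h, sub_zero]
      exact congrArg ind (propext ⟨fun h' => ⟨h', h⟩, fun h' => h'.1⟩)
  rw [← sum_sub_distrib]
  simp only [e]
  rw [sum_ind, sum_ind]
  congr 1
  refine Finset.card_bij (fun m _ => m.2.1) ?_ ?_ ?_
  · rintro ⟨b, x, l⟩ hm
    simp only [Finset.mem_filter] at hm ⊢
    obtain ⟨a1, a2, a3, -⟩ := av_facts hm.2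
    refine ⟨H30.mem_box0.2 (mem_II.1 hm.1).1, ?_, av_not_ex hm.1 hm.2⟩
    cases b <;> simp only [WS, EN, Bool.not_true, Bool.not_false] at a2 a3 ⊢ <;> omega
  · rintro ⟨b, x, l⟩ hm ⟨b', x', l'⟩ hm' (rfl : x = x')
    simp only [Finset.mem_filter, mem_II] at hm hm'
    obtain ⟨-, a2, -, a4⟩ := av_facts hm.2
    obtain ⟨-, c2, -, c4⟩ := av_facts hm'.2
    have a5 := hm.1.2.1
    have c5 := hm'.1.2.1
    obtain rfl : b = b' := by
      cases b <;> cases b' <;> simp at a2 c2 a5 c5 ⊢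
      · have := a4 a5
        omega
      · have := c4 c5
        omega
    obtain rfl : l = l' := le_antisymm (av_len hm'.2 hm.2) (av_len hm.2 hm'.2)
    rfl
  · intro x hx
    simp only [Finset.mem_filter, WS, EN] at hx ⊢
    obtain ⟨hx, ⟨⟨h1, h2⟩, h3⟩, he⟩ := hx
    have hx' : nrm x ≤ n := H30.mem_box0.1 hx
    rcases step hf false x with h4 | h4
    · have h5 := step hf true x
      obtain ⟨l, a1, a2⟩ := exists_av hf (b := false) hx' he h2
        (by simp only [Bool.not_false]; omega) h1 (Or.inr h4)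
      exact ⟨(false, x, l), ⟨a1, a2⟩, rfl⟩
    · obtain ⟨l, a1, a2⟩ := exists_av hf (b := true) hx' he h1 h4 h2 (Or.inl rfl)
      exact ⟨(true, x, l), ⟨a1, a2⟩, rfl⟩

theorem rdg_sub {b : Bool} {x : ℤ × ℤ} {l : ℕ} {f : Conf} (hf : Hom f) (h : Rdg b x l f) {t k : ℕ}
    (ht : t + k = l) : Rdg b (pt b x t) k f := by
  obtain ⟨h0, h1, h2, h3⟩ := h
  have a0 := h0 t (by omega)
  refine ⟨NullP.run_sub h0 ht.le, ?_, ?_, ?_⟩
  · cases t with
    | zero => simpa [pt_zero] using h1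
    | succ t =>
      have := h0 t (by omega)
      push_cast at a0 ⊢
      rw [a0, NullP.pt_succ, add_sub_cancel_right]
      omega
  · rw [NullP.side hf h0 (NullP.step hf _) h2 t (by omega), a0]; ring
  · rw [sub_eq_add_neg] at h3 ⊢
    rw [NullP.side hf h0 (NullP.step' hf _) h3 t (by omega), a0]; ring

theorem box_one (b : Bool) (x : ℤ × ℤ) : x ∈ box x 1 ∧ x ∈ box (x + dir b) 1 ∧
    x ∈ box (x - dir b) 1 := by
  cases b <;> simp only [mem_box, dir, Prod.fst_add, Prod.snd_add, Prod.fst_sub, Prod.snd_sub] <;>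
    omega

theorem ex_congr {n : ℕ} {U : Set (ℤ × ℤ)} {f g : Conf} (hf : Hom f)
    (h : ∀ y, f y ≠ g y → ∀ z ∈ box y 1, z ∈ U) (hb : ∀ z ∈ U, ¬ Ex n f z) {x : ℤ × ℤ}
    (he : Ex n f x) : Ex n g x := by
  have hx : x ∉ U := fun hx => hb x hx he
  obtain ⟨b, l, h1, h2⟩ := he
  have k : ∀ y, x ∈ box y 1 → g y = f y := fun y hy =>
    (not_not.1 fun hc => hx (h y hc x hy)).symm
  have k0 := k x (box_one b x).1
  refine ⟨b, l, ⟨fun t ht => ?_, ?_, ?_, ?_⟩, h2⟩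
  · rw [k0, ← h1.1 t ht]
    refine (not_not.1 fun hc => hb _ (h _ hc _ (box_one b _).1) ?_).symm
    obtain ⟨k, rfl⟩ := Nat.exists_eq_add_of_le ht
    refine ⟨b, k, rdg_sub hf h1 rfl, ?_⟩
    rw [NullP.pt_pt]
    exact_mod_cast h2
  · rw [k0, k _ (box_one b x).2.2, h1.2.1]
  · rw [k0, k _ (box_one _ x).2.1, h1.2.2.1]
  · rw [k0, k _ (box_one _ x).2.2, h1.2.2.2]

open NullP in
theorem dn_sub {n : ℕ} {U : Set (ℤ × ℤ)} {f g : Conf} (hf : Hom f) (hg : Hom g)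
    (h : ∀ y, f y ≠ g y → ∀ z ∈ box y 1, z ∈ U) (hb : ∀ z ∈ U, ¬ Ex n f z)
    (hb' : ∀ z ∈ U, ¬ Ex n g z) :
    ∑ m ∈ II n, ind (Av (-1) m f) - ∑ m ∈ II n, ind (Av (-1) m g) =
      ∑ x ∈ box 0 n, ind (WS f x ∧ ¬ EN f x) - ∑ x ∈ box 0 n, ind (WS g x ∧ ¬ EN g x) := by
  have e : ∀ x, Ex n f x ↔ Ex n g x := fun x =>
    ⟨ex_congr hf h hb, ex_congr hg (fun y hy => h y hy.symm) hb'⟩
  rw [dn_sum hf, dn_sum hg]
  simp only [e]
  ring

open NullP in
theorem rm_II {n : ℕ} {m : Mv} (h : m ∈ II n) : rm m ∈ II n := by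
  rw [mem_II] at h ⊢
  simp only [rm, pt_neg, sub_self, H30.pt_zero, nrm_neg]
  tauto

open NullP in
theorem up_sum (n : ℕ) (f : Conf) :
    ∑ m ∈ II n, ind (Av 1 m f) = ∑ m ∈ II n, ind (Av (-1) m (rf f)) :=
  Finset.sum_nbij' rm rm (fun _ => rm_II) (fun _ => rm_II) (fun m _ => rm_rm m)
    (fun m _ => rm_rm m) fun m _ => congrArg ind (propext ⟨av_rf, fun h => by
      simpa only [neg_neg, rm_rm, rf_rf] using av_rf h⟩)

open NullP in
theorem ex_rf {n : ℕ} {U : Set (ℤ × ℤ)} {f : Conf} (hb : ¬ Bad2 U n f) (z : ℤ × ℤ) (hz : -z ∈ U) :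
    ¬ Ex n (rf f) z := by
  rintro ⟨b, l, ⟨h0, h1, h2, h3⟩, h4⟩
  have e : pt b (-z) (-l) = -pt b z l := by simp only [pt, neg_smul]; abel
  refine hb ⟨-z, hz, b, l, Or.inr ⟨⟨?_, ?_, ?_, ?_⟩, by rwa [e, nrm_neg]⟩⟩
  · rw [e]
    exact rf_rf f ▸ run_rf h0
  · simp only [rf, neg_sub] at h1
    rw [neg_add_eq_sub]
    omega
  · simp only [rf, neg_sub] at h3
    rw [neg_add_eq_sub]
    omega
  · simp only [rf, neg_add] at h2
    rw [sub_eq_add_neg]
    omega

open NullP in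
/-- the total drift does not change -/
theorem null_sum {n : ℕ} {U : Set (ℤ × ℤ)} (hU : ∀ y ∈ U, nrm y < n) {f g : Conf} (hf : Hom f)
    (hg : Hom g) (h : ∀ y, f y ≠ g y → ∀ z ∈ box y 1, z ∈ U) (hb : ¬ Bad2 U n f)
    (hb' : ¬ Bad2 U n g) : ∑ m ∈ II n, dr m f = ∑ m ∈ II n, dr m g := by
  have h' : ∀ y, (n : ℤ) - 2 < nrm y → f y = g y := fun y hy => not_not.1 fun hc => by
    have a1 := hU _ (h y hc (y.1 + 1, y.2 + 1) (by simp only [mem_box]; omega))
    have a2 := hU _ (h y hc (y.1 - 1, y.2 - 1) (by simp only [mem_box]; omega))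
    simp only [nrm_eq] at a1 a2 hy
    omega
  have k : ∀ f, ¬ Bad2 U n f → ∀ z ∈ U, ¬ Ex n f z := fun f hb z hz ⟨b, l, he⟩ =>
    hb ⟨z, hz, b, l, Or.inl he⟩
  have e1 := dn_sub hf hg h (k f hb) (k g hb')
  have e2 := dn_sub (U := {z | -z ∈ U}) (hom_rf hf) (hom_rf hg) (fun y hy z hz =>
    h (-y) (fun hc => hy (by rw [rf, rf, hc])) (-z) (by
      simp only [mem_box, Prod.fst_neg, Prod.snd_neg] at hz ⊢; omega)) (ex_rf hb) (ex_rf hb')
  rw [rf_sum, rf_sum] at e2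
  have d : ∀ f : Conf, ∑ m ∈ II n, dr m f =
      ∑ m ∈ II n, ind (Av (-1) m f) - ∑ m ∈ II n, ind (Av (-1) m (rf f)) := fun f => by
    simp only [dr, Finset.sum_sub_distrib, H27.up_sum]
  have c : ∀ f : Conf, ∑ x ∈ box 0 n, ind (WS f x ∧ ¬ EN f x) -
      ∑ x ∈ box 0 n, ind (EN f x ∧ ¬ WS f x) =
      ∑ x ∈ box 0 n, ind (WS f x) - ∑ x ∈ box 0 n, ind (EN f x) := fun f => by
    simp only [← Finset.sum_sub_distrib, ind_diff]
  have hR : (n : ℤ) - 1 + 1 ≤ n := by omega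
  have s1 := shift (fun y => ind (WS f y) - ind (WS g y)) hR (fun y hy => by
    have a1 := nrm_dir true y
    have a2 := nrm_dir false y
    simp only [WS]
    rw [h' y (by omega), h' (y - dir true) (by omega), h' (y - dir false) (by omega), sub_self])
    (dir true + dir false) (by decide)
  have s2 := fun v hv => shift (fun y => (f y : ℝ) - g y) hR
    (fun y hy => by rw [h' y (by omega), sub_self]) v hv
  have t1 := s2 (dir true + dir false) (by decide)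
  have t2 := s2 (dir true) (by decide)
  have t3 := s2 (dir false) (by decide)
  have u1 := Finset.sum_congr (s₁ := box 0 n) rfl fun y _ => face hf y
  have u2 := Finset.sum_congr (s₁ := box 0 n) rfl fun y _ => face hg y
  simp only [Finset.sum_sub_distrib, Finset.sum_add_distrib, ← Finset.sum_div] at s1 t1 t2 t3 u1 u2
  have c1 := c f
  have c2 := c g
  rw [d f, d g]
  linarith

end Pool.Agent.MP_151d89_pr.H27
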