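import Pool.Agent.MP_151d89_pr.H27.En

/-!
Bounded second moments of the weighted drift force a point mass.
-/

set_option autoImplicit false
open MeasureTheory Finset Filter Topology

namespace Pool.Agent.MP_151d89_pr.H27
open Pool.Agent.MP_151d89_pr.H82 Pool.Agent.MP_151d89_pr.H33 Pool.Agent.MP_151d89_pr.H67
open Pool.Agent.MP_151d89_pr.H30
open Classical

theorem int_SG {μ : Measure Conf} (hμ : Gibbs μ) (n : ℕ) (ψ : Mv → ℝ) {F : Conf → ℝ}
    (hF : Measurable F) (hb : ∀ f, |F f| ≤ 1) : ∫ f, F f * SG n ψ f ∂μ =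
      ∑ m ∈ II n, ψ m * ∫ f, ind (Av (-1) m f) * (F f - F (H30.flip m f)) ∂μ := by
  have := hμ.1
  have e : ∀ f, F f * SG n ψ f = ∑ m ∈ II n, ψ m * (dr m f * F f) := fun f => by
    rw [SG, mul_sum]
    exact sum_congr rfl fun m _ => by ring
  simp only [e]
  rw [integral_finsetSum _ fun m _ => (intg (μ := μ) (φ := fun f => dr m f * F f)
    ((meas_dr m).mul hF) fun f => abs_mul_le (dr_le _ _) (hb _)).const_mul _]
  exact sum_congr rfl fun m _ => by rw [integral_const_mul, int_dr hμ m hF hb]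

theorem mean_SG {μ : Measure Conf} (hμ : Gibbs μ) (n : ℕ) (ψ : Mv → ℝ) :
    ∫ f, SG n ψ f ∂μ = 0 := by
  simpa using int_SG hμ n ψ (F := fun _ => 1) measurable_const (by simp)

theorem cov_ge {μ : Measure Conf} (hμ : Gibbs μ) {n : ℕ} {ψ : Mv → ℝ} (h0 : ∀ m, 0 ≤ ψ m)
    (x : ℤ × ℤ) (t : ℤ) (hx : nrm x ≤ n) (h1 : ψ (true, x, 0) = 1) :
    μ.real {f | Av (-1) (true, x, 0) f ∧ f x = t} ≤ ∫ f, ind (t ≤ f x) * SG n ψ f ∂μ := by
  have := hμ.1
  have mF := meas_ind (meas_ge x t)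
  rw [int_SG hμ n ψ mF fun f => ind_abs _]
  have h2 : ∀ (m : Mv) (f : Conf),
      0 ≤ ind (Av (-1) m f) * (ind (t ≤ f x) - ind (t ≤ H30.flip m f x)) := by
    intro m f
    refine mul_nonneg (ind_mem _).1 (sub_nonneg.2 ?_)
    by_cases h : t ≤ H30.flip m f x
    · rw [ind_pos h, ind_pos (h.trans (flip_le m f x))]
    · rw [ind_neg h]; exact (ind_mem _).1
  have hm : ((true, x, 0) : Mv) ∈ II n := by
    rw [mem_II]
    simpa only [Nat.cast_zero, pt_zero, true_or, true_and, and_self] using hx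
  refine le_trans ?_ (single_le_sum (f := fun m => ψ m *
    ∫ f, ind (Av (-1) m f) * (ind (t ≤ f x) - ind (t ≤ H30.flip m f x)) ∂μ)
    (fun m _ => mul_nonneg (h0 m) (integral_nonneg (h2 m))) hm)
  have mA : MeasurableSet {f : Conf | Av (-1) (true, x, 0) f ∧ f x = t} :=
    (meas_Av _ _).inter (measurableSet_eq_fun (measurable_pi_apply x) measurable_const)
  rw [h1, one_mul, ← int_ind μ mA]
  refine integral_mono (intg (meas_ind mA) fun f => ind_abs _) (intg (B := 1 * (1 + 1))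
    ((meas_ind (meas_Av _ _)).mul (mF.sub (mF.comp (meas_flip _)))) fun f =>
      abs_mul_le (ind_abs _) ((abs_sub _ _).trans (add_le_add (ind_abs _) (ind_abs _)))) fun f => ?_
  by_cases h : Av (-1) (true, x, 0) f ∧ f x = t
  · have e : H30.flip (true, x, 0) f x = f x - 2 := flip_in f (tow_start (true, x, 0))
    simp only
    rw [ind_pos h, ind_pos h.1, ind_pos h.2.ge, ind_neg (by rw [e, h.2]; omega)]
    simp
  · simp only
    rw [ind_neg h]
    exact h2 _ f

/-- a run of k steps starts or ends in the box of radius s -/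
def Bad3 (s k : ℕ) (f : Conf) : Prop :=
  ∃ z ∈ box 0 s, ∃ b, Run b z k f ∨ Run b (pt b z (-k)) k f

theorem meas_Bad3 (s k : ℕ) : MeasurableSet {f | Bad3 s k f} :=
  measurableSet_setOfPred.2 (Measurable.exists fun _ => measurable_const.and
    (Measurable.exists fun _ => (measurableSet_setOfPred.1 (meas_Run _ _ _)).or
      (measurableSet_setOfPred.1 (meas_Run _ _ _))))

theorem run_back {b : Bool} {z : ℤ × ℤ} {l k : ℕ} {f : Conf} (h : Run b (pt b z (-l)) l f)
    (hk : k ≤ l) : Run b (pt b z (-k)) k f := by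
  obtain ⟨u, rfl⟩ := Nat.exists_eq_add_of_le hk
  have := NullP.run_sub (u := u) (K := k) h (by omega)
  rwa [NullP.pt_pt, show -((k + u : ℕ) : ℤ) + u = -k by push_cast; ring] at this

theorem bad3_small {μ : Measure Conf} [IsProbabilityMeasure μ] (hN : NoRay μ) (s : ℕ) {ε : ℝ}
    (hε : 0 < ε) : ∃ k, μ.real {f | Bad3 s k f} < ε := by
  have h1 := tendsto_integral_of_dominated_convergence (μ := μ)
    (F := fun k f => ind (Bad3 s k f)) (f := fun _ => 0) (fun _ => 1)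
    (fun k => (meas_ind (meas_Bad3 s k)).aestronglyMeasurable) (integrable_const _)
    (fun i => ae_of_all _ fun f => ind_abs _)
    (by
      filter_upwards [hN] with f hf
      have h2 : ∀ᶠ k : ℕ in atTop, ∀ z ∈ box 0 s, ∀ b,
          ¬ (Run b z k f ∨ Run b (pt b z (-k)) k f) := by
        refine (eventually_all_finset _).2 fun z _ => eventually_all.2 fun b => ?_
        obtain ⟨⟨l, h1⟩, l', h2⟩ := hf b z
        filter_upwards [eventually_ge_atTop l, eventually_ge_atTop l'] with k a1 a2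
        rintro (h | h)
        · exact h1 fun t ht => h t (ht.trans a1)
        · exact h2 (run_back h a2)
      refine tendsto_const_nhds.congr' ?_
      filter_upwards [h2] with k hk
      exact (ind_neg fun ⟨z, hz, b, h⟩ => hk z hz b h).symm)
  rw [integral_zero] at h1
  obtain ⟨k, hk⟩ := (h1.eventually (gt_mem_nhds hε)).exists
  exact ⟨k, by rwa [int_ind μ (meas_Bad3 s k)] at hk⟩

theorem run_bad3 {s k : ℕ} {b : Bool} {x : ℤ × ℤ} {l : ℕ} {f : Conf} (h : Run b x l f) {t u : ℕ}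
    (ht : t ≤ l) (hu : u ≤ l) (h1 : nrm (pt b x t) ≤ s) (h2 : (s : ℤ) + k < nrm (pt b x u)) :
    Bad3 s k f := by
  have h3 := (NullP.nrm_pt b (pt b x t) (u - t)).1
  rw [NullP.pt_pt, add_sub_cancel] at h3
  refine ⟨_, mem_box0.2 h1, b, ?_⟩
  rcases le_total t u with e | e
  · exact Or.inl (NullP.run_sub h (by omega))
  · right
    obtain ⟨v, rfl⟩ := Nat.exists_eq_add_of_le (show k ≤ t by omega)
    have := NullP.run_sub (u := v) (K := k) h (by omega)
    rwa [NullP.pt_pt, show ((k + v : ℕ) : ℤ) + -k = v by push_cast; ring]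

theorem SG_far {n s k : ℕ} {ψ : Mv → ℝ} (hn : s + 1 + k + 1 ≤ n)
    (h1 : ∀ m, (∀ y ∈ tow m, nrm y ≤ ((s + 1 + k + 1 : ℕ) : ℤ)) → ψ m = 1) {f g : Conf}
    (hf : Hom f) (hg : Hom g) (h : ∀ y, y ∉ box 0 s → f y = g y) (b1 : ¬ Bad3 (s + 1) k f)
    (b2 : ¬ Bad3 (s + 1) k g) : SG n ψ f = SG n ψ g := by
  have k2 : ∀ f, ¬ Bad3 (s + 1) k f → ¬ Bad2 {y | nrm y ≤ s + 1} n f := by
    rintro f hb ⟨z, hz, b, l, ⟨a1, a2⟩ | ⟨a1, a2⟩⟩
    · exact hb (run_bad3 a1.1 (Nat.zero_le l) le_rfl (by simpa [pt_zero] using hz) (by omega))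
    · refine hb (run_bad3 a1.1 le_rfl (Nat.zero_le l) ?_ ?_)
      · simpa [NullP.pt_pt, pt_zero] using hz
      · rw [Nat.cast_zero, pt_zero]
        omega
  have h2 := null_sum (n := n) (U := {y | nrm y ≤ s + 1})
    (fun y hy => by simp only [Set.mem_ofPred_eq] at hy; omega) hf hg (fun y hy z hz => by
      have a1 := mem_box0.1 (not_not.1 fun hc => hy (h y hc))
      have a2 := nrm_near hz
      simp only [Set.mem_ofPred_eq]
      omega) (k2 f b1) (k2 g b2)
  rw [← sub_eq_zero, ← sum_sub_distrib] at h2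
  rw [← sub_eq_zero, SG, SG, ← sum_sub_distrib, ← h2]
  refine sum_congr rfl fun m _ => ?_
  by_cases h3 : ∀ y ∈ tow m, nrm y ≤ ((s + 1 + k + 1 : ℕ) : ℤ)
  · rw [h1 m h3, one_mul, one_mul]
  suffices e : dr m f = dr m g by rw [e, sub_self, sub_self]
  by_cases h4 : ∀ y ∈ tow m, (s : ℤ) + 1 < nrm y
  · refine dr_loc fun y hy z hz => (h z fun hc => ?_).symm
    have a1 := h4 y hy
    rw [mem_box0] at hc
    simp only [NullP.nrm_eq, Int.abs_eq_natAbs] at a1 hc hz
    omega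
  push Not at h3 h4
  obtain ⟨y, hy, h3⟩ := h3
  obtain ⟨y', hy', h4⟩ := h4
  obtain ⟨u, hu, rfl⟩ := mem_tow.1 hy
  obtain ⟨t, ht, rfl⟩ := mem_tow.1 hy'
  have k3 : ∀ f, ¬ Bad3 (s + 1) k f → dr m f = 0 := fun f hb => by
    have := dr_abs m f
    rwa [ind_neg fun hr => hb (run_bad3 hr ht hu (by exact_mod_cast h4) (by omega)),
      abs_nonpos_iff] at this
  rw [k3 f b1, k3 g b2]

theorem diff_am {u v δ : ℝ} (hδ : 0 < δ) {p q : Prop} (h : ¬ p → ¬ q → u = v) :
    |u - v| ≤ δ * (u ^ 2 + v ^ 2) + 1 / (2 * δ) * (ind p + ind q) := by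
  have h1 := ind_mem p
  have h2 := ind_mem q
  have h3 : ∀ w : ℝ, |w| ≤ δ * w ^ 2 + 1 / (4 * δ) := fun w => by
    have a1 : 0 ≤ δ * (|w| - 1 / (2 * δ)) ^ 2 := by positivity
    have a2 : δ * (|w| - 1 / (2 * δ)) ^ 2 = δ * |w| ^ 2 + 1 / (4 * δ) - |w| := by
      field_simp; ring
    rw [sq_abs] at a2
    linarith
  have h4 : |u - v| ≤ δ * (u ^ 2 + v ^ 2) + 1 / (2 * δ) * 1 := by
    have a1 : 1 / (4 * δ) + 1 / (4 * δ) = 1 / (2 * δ) * 1 := by field_simp; ring
    linarith [abs_sub u v, h3 u, h3 v]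
  by_cases hp : p
  · exact h4.trans (by rw [ind_pos hp]; gcongr; linarith)
  by_cases hq : q
  · exact h4.trans (by rw [ind_pos hq]; gcongr; linarith)
  rw [h hp hq, sub_self, abs_zero, ind_neg hp, ind_neg hq]
  positivity

theorem far_err {μ : Measure Conf} (hμ : Gibbs μ) (Λ : Finset (ℤ × ℤ)) {S : Conf → ℝ} {M : ℝ}
    (mS : Measurable S) (bS : ∀ f, |S f| ≤ M) {B : Conf → Prop} (hB : MeasurableSet {f | B f})
    (h : ∀ f, Hom f → ∀ a ∈ FS Λ f, ¬ B f → ¬ B a → S f = S a) {δ : ℝ} (hδ : 0 < δ)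
    {F : Conf → ℝ} (hF : Measurable F) (hb : ∀ f, |F f| ≤ 1) :
    ∫ f, F f * S f ∂μ ≤ ∫ f, av Λ F f * S f ∂μ +
      (2 * δ * ∫ f, S f ^ 2 ∂μ + 1 / δ * μ.real {f | B f}) := by
  have := hμ.1
  have e1 : ∫ f, av Λ F f * S f ∂μ = ∫ f, av Λ S f * F f ∂μ := by
    rw [int_av_mul hμ _ hF mS hb bS, int_av_mul hμ _ mS hF bS hb]
    simp only [mul_comm]
  set G : Conf → ℝ := fun f => δ * S f ^ 2 + 1 / (2 * δ) * ind (B f) with hG
  have b2 : ∀ f, |S f ^ 2| ≤ M ^ 2 := fun f => by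
    rw [abs_pow]; exact pow_le_pow_left₀ (abs_nonneg _) (bS f) 2
  have mG : Measurable G := ((mS.pow_const 2).const_mul _).add ((meas_ind hB).const_mul _)
  have bG : ∀ f, |G f| ≤ |δ| * M ^ 2 + |1 / (2 * δ)| * 1 := fun f =>
    (abs_add_le _ _).trans (add_le_add (abs_mul_le le_rfl (b2 f))
      (abs_mul_le le_rfl (ind_abs _)))
  have i1 : Integrable (fun f => av Λ S f * F f) μ :=
    intg ((meas_av _ mS).mul hF) fun f => abs_mul_le (av_abs bS f) (hb f)
  have i2 : Integrable G μ := intg mG bG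
  have i3 : Integrable (av Λ G) μ := intg (meas_av _ mG) (av_abs bG)
  have e2 : 2 * δ * ∫ f, S f ^ 2 ∂μ + 1 / δ * μ.real {f | B f} = ∫ f, (G f + av Λ G f) ∂μ := by
    rw [integral_add i2 i3, int_av hμ _ mG bG, hG,
      integral_add ((intg (mS.pow_const 2) b2).const_mul _)
        ((intg (meas_ind hB) fun f => ind_abs _).const_mul _), integral_const_mul,
      integral_const_mul, int_ind μ hB]
    field_simp
    ring
  have i4 : Integrable (fun f => G f + av Λ G f) μ := i2.add i3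
  rw [e1, e2, ← integral_add i1 i4]
  refine integral_mono_ae (intg (hF.mul mS) fun f => abs_mul_le (hb f) (bS f)) (i1.add i4) ?_
  filter_upwards [hμ.2.1] with f hf
  have key : ∀ σ : ℝ, |σ| ≤ 1 → σ * S f ≤ av Λ S f * σ + (G f + av Λ G f) := by
    intro σ hσ
    rw [← av_const Λ (σ * S f) hf, ← av_const Λ (G f) hf, ← av_add, mul_comm _ σ, ← av_smul,
      ← av_add]
    refine av_le fun a ha => ?_
    have h1 := diff_am hδ (h f hf a ha)
    have h2 := (le_abs_self _).trans (abs_mul_le hσ h1)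
    simp only [hG]
    linarith
  exact key _ (hb f)

theorem no_peak {μ : Measure Conf} (hμ : Gibbs μ) (hT : Triv μ) (hN : NoRay μ) {E : ℝ}
    (hE0 : 0 < E) (H : ∀ r : ℕ, ∃ (n : ℕ) (ψ : Mv → ℝ), r ≤ n ∧ (∀ m, 0 ≤ ψ m ∧ ψ m ≤ 1) ∧
      (∀ m, (∀ y ∈ tow m, nrm y ≤ r) → ψ m = 1) ∧ ∫ f, SG n ψ f ^ 2 ∂μ ≤ E) (x : ℤ × ℤ) :
    μ {f | Av (-1) (true, x, 0) f} = 0 := by
  have := hμ.1
  have hU : {f : Conf | Av (-1) (true, x, 0) f} =
      ⋃ t : ℤ, {f | Av (-1) (true, x, 0) f ∧ f x = t} := by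
    ext f; simp
  rw [hU]
  refine measure_iUnion_null fun t => ?_
  by_contra h0
  set p0 := μ.real {f | Av (-1) (true, x, 0) f ∧ f x = t} with hp0
  have hpos : 0 < p0 := ENNReal.toReal_pos h0 (measure_ne_top _ _)
  set F : Conf → ℝ := fun f => ind (t ≤ f x) with hF
  have mF : Measurable F := meas_ind (meas_ge x t)
  have bF : ∀ f, |F f| ≤ 1 := fun f => ind_abs _
  set e := ∫ f, F f ∂μ with he
  have be : |e| ≤ 1 := by
    simpa using norm_integral_le_of_norm_le_const (μ := μ) (f := F) (C := 1) (ae_of_all _ bF)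
  have mu : ∀ s, Measurable fun f => av (box 0 s) F f - e := fun s => (meas_av _ mF).sub_const _
  have bu : ∀ s f, |av (box 0 s) F f - e| ≤ 1 + 1 := fun s f =>
    (abs_sub _ _).trans (add_le_add (av_abs bF f) be)
  obtain ⟨s, hs⟩ : ∃ s : ℕ, ∫ f, (av (box 0 s) F f - e) ^ 2 ∂μ < p0 ^ 2 / (4 * E) := by
    obtain ⟨ns, h⟩ := av_tendsto hμ hT mF bF
    have h1 := tendsto_integral_of_dominated_convergence (μ := μ)
      (F := fun i f => (av (box 0 (ns i)) F f - e) ^ 2) (f := fun _ => 0) (fun _ => (1 + 1) ^ 2)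
      (fun i => ((mu _).pow_const 2).aestronglyMeasurable) (integrable_const _)
      (fun i => ae_of_all _ fun f => by
        rw [Real.norm_eq_abs, abs_pow]
        exact pow_le_pow_left₀ (abs_nonneg _) (bu _ f) 2)
      (by
        filter_upwards [h] with f hf
        simpa [← he] using (hf.sub_const e).pow 2)
    rw [integral_zero] at h1
    obtain ⟨i, hi⟩ := (h1.eventually (gt_mem_nhds (show 0 < p0 ^ 2 / (4 * E) by positivity))).exists
    exact ⟨_, hi⟩
  obtain ⟨k0, hk0⟩ := bad3_small hN (s + 1) (ε := p0 ^ 2 / (128 * E)) (by positivity)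
  set k := k0 + (nrm x).toNat with hk
  have hk1 : μ.real {f | Bad3 (s + 1) k f} ≤ p0 ^ 2 / (128 * E) := by
    refine (measureReal_mono ?_ (measure_ne_top _ _)).trans hk0.le
    rintro f ⟨z, hz, b, h | h⟩
    · exact ⟨z, hz, b, Or.inl fun u hu => h u (by omega)⟩
    · exact ⟨z, hz, b, Or.inr (run_back h (by omega))⟩
  obtain ⟨n, ψ, h3, h4, h5, h9⟩ := H (s + 1 + k + 1)
  have bψ : ∀ m, |ψ m| ≤ 1 := fun m => by rw [abs_of_nonneg (h4 m).1]; exact (h4 m).2
  have mS := meas_SG n ψ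
  have bS := SG_abs n bψ
  have h10 := (cov_ge hμ (n := n) (fun m => (h4 m).1) x t (by omega) (h5 _ fun y hy => by
    obtain ⟨u, hu, rfl⟩ := mem_tow.1 hy
    obtain rfl : u = 0 := Nat.le_zero.1 hu
    rw [Nat.cast_zero, pt_zero]
    dsimp only
    omega)).trans (far_err hμ (box 0 s) mS bS (meas_Bad3 (s + 1) k) (fun f hf a ha b1 b2 =>
      SG_far h3 h5 hf (mem_FS.1 ha).1 (fun y hy => ((mem_FS.1 ha).2 y hy).symm) b1 b2)
      (δ := p0 / (16 * E)) (by positivity) mF bF)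
  have iS : Integrable (SG n ψ) μ := intg mS bS
  have i1 : Integrable (fun f => (av (box 0 s) F f - e) ^ 2) μ :=
    intg (B := (1 + 1) ^ 2) ((mu s).pow_const 2) fun f => by
      rw [abs_pow]; exact pow_le_pow_left₀ (abs_nonneg _) (bu _ f) 2
  have i2 : Integrable (fun f => SG n ψ f ^ 2) μ :=
    intg (B := (II n).card ^ 2) (mS.pow_const 2) fun f => by
      rw [abs_pow]; exact pow_le_pow_left₀ (abs_nonneg _) (bS f) 2
  have h11 : ∫ f, av (box 0 s) F f * SG n ψ f ∂μ ≤ ∫ f, (E / p0 * (av (box 0 s) F f - e) ^ 2 +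
      p0 / (4 * E) * SG n ψ f ^ 2) + e * SG n ψ f ∂μ := by
    refine integral_mono (intg ((meas_av _ mF).mul mS)
      fun f => abs_mul_le (av_abs bF f) (bS f))
      (((i1.const_mul _).add (i2.const_mul _)).add (iS.const_mul _)) fun f => ?_
    have h12 : 0 ≤ E / p0 * ((av (box 0 s) F f - e) - p0 / (2 * E) * SG n ψ f) ^ 2 := by positivity
    have h13 : E / p0 * ((av (box 0 s) F f - e) - p0 / (2 * E) * SG n ψ f) ^ 2 =
        E / p0 * (av (box 0 s) F f - e) ^ 2 + p0 / (4 * E) * SG n ψ f ^ 2 -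
          (av (box 0 s) F f - e) * SG n ψ f := by
      field_simp; ring
    simp only
    linarith
  have i3 : Integrable (fun f => E / p0 * (av (box 0 s) F f - e) ^ 2 +
      p0 / (4 * E) * SG n ψ f ^ 2) μ := (i1.const_mul _).add (i2.const_mul _)
  rw [integral_add i3 (iS.const_mul _),
    integral_add (i1.const_mul _) (i2.const_mul _), integral_const_mul, integral_const_mul,
    integral_const_mul, mean_SG hμ, mul_zero, add_zero] at h11
  have h12 : E / p0 * ∫ f, (av (box 0 s) F f - e) ^ 2 ∂μ ≤ p0 / 4 :=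
    (mul_le_mul_of_nonneg_left hs.le (by positivity)).trans (le_of_eq (by field_simp))
  have h13 : p0 / (4 * E) * ∫ f, SG n ψ f ^ 2 ∂μ ≤ p0 / 4 :=
    (mul_le_mul_of_nonneg_left h9 (by positivity)).trans (le_of_eq (by field_simp))
  have h14 : 2 * (p0 / (16 * E)) * ∫ f, SG n ψ f ^ 2 ∂μ ≤ p0 / 8 :=
    (mul_le_mul_of_nonneg_left h9 (by positivity)).trans (le_of_eq (by field_simp; ring))
  have h15 : 1 / (p0 / (16 * E)) * μ.real {f | Bad3 (s + 1) k f} ≤ p0 / 8 :=
    (mul_le_mul_of_nonneg_left hk1 (by positivity)).trans (le_of_eq (by field_simp; ring))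
  linarith

theorem core_row : CoreStmt := by
  intro μ hμ hT hN E H
  have h1 := no_peak hμ hT hN (E := |E| + 1) (by positivity) fun r => by
    obtain ⟨n, ψ, a1, a2, a3, a4⟩ := H r
    exact ⟨n, ψ, a1, a2, a3, by linarith [le_abs_self E]⟩
  have := hμ.1
  refine dirac_row μ hμ hT h1 fun x => ?_
  have h2 := rev_row μ hμ (true, x, 0) (fun _ => 1) 1 measurable_const (by simp)
  simp only [mul_one] at h2
  rw [int_ind μ (meas_Av _ _), int_ind μ (meas_Av _ _), Measure.real, h1 x] at h2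
  exact (measureReal_eq_zero_iff (measure_ne_top _ _)).1 (by simpa using h2.symm)

end Pool.Agent.MP_151d89_pr.H27
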