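import Pool.Agent.MP_151d89_pr.H27.Null

/-!
The energy bound for a general cut-off.
-/

set_option autoImplicit false
open MeasureTheory Finset

namespace Pool.Agent.MP_151d89_pr.H27
open Pool.Agent.MP_151d89_pr.H82 Pool.Agent.MP_151d89_pr.H33 Pool.Agent.MP_151d89_pr.H67
open Pool.Agent.MP_151d89_pr.H30
open Classical

theorem meas_eq' (x y : ℤ × ℤ) : Measurable fun f : Conf => f x = f y - 1 := by
  simpa only [sub_eq_add_neg] using meas_eq x y (-1)

theorem meas_Rdg (b : Bool) (x : ℤ × ℤ) (l : ℕ) : Measurable (Rdg b x l) :=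
  (measurableSet_setOfPred.1 (meas_Run _ _ _)).and
    ((meas_eq' _ _).and ((meas_eq' _ _).and (meas_eq' _ _)))

theorem meas_Vly (b : Bool) (x : ℤ × ℤ) (l : ℕ) : Measurable (Vly b x l) :=
  (measurableSet_setOfPred.1 (meas_Run _ _ _)).and
    ((meas_eq _ _ _).and ((meas_eq _ _ _).and (meas_eq _ _ _)))

theorem meas_Bad1 (D U : Set (ℤ × ℤ)) : MeasurableSet {f | Bad1 D U f} :=
  measurableSet_setOfPred.2 (Measurable.exists fun _ => measurable_const.and
    (Measurable.exists fun _ => Measurable.exists fun _ => (meas_Rdg _ _ _).and measurable_const))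

theorem meas_Bad2 (U : Set (ℤ × ℤ)) (n : ℕ) : MeasurableSet {f | Bad2 U n f} :=
  measurableSet_setOfPred.2 (Measurable.exists fun _ => measurable_const.and
    (Measurable.exists fun _ => Measurable.exists fun _ =>
      ((meas_Rdg _ _ _).and measurable_const).or ((meas_Vly _ _ _).and measurable_const)))

/-- the total drift -/
noncomputable def AG (n : ℕ) (f : Conf) : ℝ := ∑ m ∈ II n, dr m f

theorem AG_abs (n : ℕ) (f : Conf) : |AG n f| ≤ (II n).card := sum_abs _ fun m => dr_le m f

theorem SG_abs (n : ℕ) {ψ : Mv → ℝ} (h : ∀ m, |ψ m| ≤ 1) (f : Conf) :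
    |SG n ψ f| ≤ (II n).card := sum_abs _ fun m => by
  simpa using abs_mul_le (h m) (dr_le m f)

theorem meas_AG (n : ℕ) : Measurable (AG n) := Finset.measurable_sum _ fun m _ => meas_dr m

theorem meas_SG (n : ℕ) (ψ : Mv → ℝ) : Measurable (SG n ψ) :=
  Finset.measurable_sum _ fun m _ => (meas_dr m).const_mul _

theorem ind_or (p q : Prop) : ind (p ∨ q) ≤ ind p + ind q := by
  by_cases hp : p <;> by_cases hq : q <;> simp [ind, hp, hq]

theorem eps {μ : Measure Conf} (hμ : Gibbs μ) {n : ℕ} {D U : Set (ℤ × ℤ)}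
    (hU : ∀ y ∈ U, nrm y < n) {m : Mv} (hm : m.2.1 ∈ D) : ∫ f, dr m f * AG n f ∂μ ≤
      2 * (II n).card * (μ.real {f | Bad1 D U f} + 2 * μ.real {f | Bad2 U n f}) := by
  have := hμ.1
  have m1 := meas_ind (meas_Bad1 D U)
  have m2 := meas_ind (meas_Bad2 U n)
  rw [int_dr hμ m (meas_AG n) (AG_abs n)]
  have i0 : Integrable (fun f => ind (Bad1 D U f)) μ := intg m1 fun f => ind_abs _
  have i1 : Integrable (fun f => ind (Bad2 U n f)) μ := intg m2 fun f => ind_abs _
  have i2 : Integrable (fun f => ind (Av (-1) m f) * ind (Bad2 U n (H30.flip m f))) μ :=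
    intg ((meas_ind (meas_Av _ m)).mul (m2.comp (meas_flip m)))
      fun f => abs_mul_le (ind_abs _) (ind_abs _)
  have i3 : Integrable (fun f => ind (Bad1 D U f) + ind (Bad2 U n f)) μ := i0.add i1
  have h1 : ∫ f, ind (Av (-1) m f) * ind (Bad2 U n (H30.flip m f)) ∂μ ≤
      μ.real {f | Bad2 U n f} := by
    rw [rev_row μ hμ m (fun f => ind (Bad2 U n f)) 1 m2 fun f => ind_abs _,
      ← int_ind μ (meas_Bad2 U n)]
    refine integral_mono (intg ((meas_ind (meas_Av _ m)).mul m2)
      fun f => abs_mul_le (ind_abs _) (ind_abs _)) i1 fun f => ?_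
    exact mul_le_of_le_one_left (ind_mem _).1 (ind_mem _).2
  calc _ ≤ ∫ f, 2 * (II n).card * (ind (Bad1 D U f) + ind (Bad2 U n f) +
        ind (Av (-1) m f) * ind (Bad2 U n (H30.flip m f))) ∂μ := by
        refine integral_mono_ae (intg (B := 1 * ((II n).card + (II n).card))
          ((meas_ind (meas_Av _ m)).mul ((meas_AG n).sub ((meas_AG n).comp (meas_flip m))))
          fun f => abs_mul_le (ind_abs _) ((abs_sub _ _).trans
            (add_le_add (AG_abs _ _) (AG_abs _ _)))) ((i3.add i2).const_mul _) ?_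
        filter_upwards [hμ.2.1] with f hf
        by_cases ha : Av (-1) m f
        · rw [ind_pos ha, one_mul, one_mul]
          refine (le_abs_self _).trans ((diff_le (p := Bad1 D U f ∨ Bad2 U n f) (AG_abs _ _)
            (AG_abs _ _) fun b1 b2 => null_sum hU hf (hom_flip hf ha) (fun y hy z hz => ?_)
              (fun h => b1 (Or.inr h)) b2).trans ?_)
          · obtain ⟨t, ht, rfl⟩ := mem_tow.1 (not_not.1 fun hc => hy (flip_out f hc).symm)
            exact not_not.1 fun hc => b1 (Or.inl ⟨_, hm, _, t, av_rdg ha ht, z, hz, hc⟩)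
          · exact mul_le_mul_of_nonneg_left (add_le_add_left (ind_or _ _) _) (by positivity)
        · rw [ind_neg ha, zero_mul, zero_mul, add_zero]
          have := (ind_mem (Bad1 D U f)).1
          have := (ind_mem (Bad2 U n f)).1
          positivity
    _ ≤ _ := by
        rw [integral_const_mul, integral_add i3 i2, integral_add i0 i1, int_ind μ (meas_Bad1 D U),
          int_ind μ (meas_Bad2 U n)]
        exact mul_le_mul_of_nonneg_left (by linarith) (by positivity)

theorem en_row : EnStmt := by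
  intro μ hμ n ψ D U h1 hD hU
  have := hμ.1
  have i1 : ∀ m, Integrable (fun f => ψ m ^ 2 * (dr m f * AG n f)) μ := fun m =>
    (intg ((meas_dr m).mul (meas_AG n)) fun f => abs_mul_le (dr_le _ _) (AG_abs _ _)).const_mul _
  have i2 : ∀ m m', Integrable (fun f => -((ψ m - ψ m') ^ 2 * (dr m f * dr m' f))) μ :=
    fun m m' => ((intg ((meas_dr m).mul (meas_dr m'))
      fun f => abs_mul_le (dr_le _ _) (dr_le _ _)).const_mul _).neg
  have e : ∀ f, SG n ψ f ^ 2 = ∑ m ∈ II n, ψ m ^ 2 * (dr m f * AG n f) +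
      1 / 2 * ∑ m ∈ II n, ∑ m' ∈ II n, -((ψ m - ψ m') ^ 2 * (dr m f * dr m' f)) :=
    fun f => alg _ _ _
  simp only [e]
  rw [integral_add (integrable_finsetSum _ fun m _ => i1 m) ((integrable_finsetSum _ fun m _ =>
      integrable_finsetSum _ fun m' _ => i2 m m').const_mul _), integral_const_mul,
    integral_finsetSum _ fun m _ => i1 m,
    integral_finsetSum _ fun m _ => integrable_finsetSum _ fun m' _ => i2 m m']
  set R := μ.real {f | Bad1 D U f} + 2 * μ.real {f | Bad2 U n f} with hR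
  have hR0 : 0 ≤ 2 * (II n).card * R := by positivity
  have h2 : ∑ m ∈ II n, ∫ f, ψ m ^ 2 * (dr m f * AG n f) ∂μ ≤ 2 * (II n).card ^ 2 * R := by
    refine (sum_le_sum (g := fun _ => 2 * (II n).card * R) fun m _ => ?_).trans ?_
    · rw [integral_const_mul]
      by_cases h0 : ψ m = 0
      · simpa [h0] using hR0
      have h3 : ψ m ^ 2 ≤ 1 := by simpa using sq_le_sq' (abs_le.1 (h1 m)).1 (abs_le.1 (h1 m)).2
      rcases le_total (∫ f, dr m f * AG n f ∂μ) 0 with h4 | h4
      · exact (mul_nonpos_of_nonneg_of_nonpos (sq_nonneg _) h4).trans hR0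
      · exact (mul_le_of_le_one_left h4 h3).trans (eps hμ hU (hD m h0))
    · rw [sum_const, nsmul_eq_mul]
      exact le_of_eq (by ring)
  have h3 : ∑ m ∈ II n, ∫ f, ∑ m' ∈ II n, -((ψ m - ψ m') ^ 2 * (dr m f * dr m' f)) ∂μ ≤
      ∑ m ∈ II n, ∑ m' ∈ II n, (pw μ ψ m m' + pw μ ψ m' m) :=
    sum_le_sum fun m _ => by
      rw [integral_finsetSum _ fun m' _ => i2 m m']
      refine sum_le_sum fun m' _ => ?_
      rw [integral_neg, integral_const_mul]
      exact pair_le hμ ψ m m'
  have h4 : ∑ m ∈ II n, ∑ m' ∈ II n, (pw μ ψ m m' + pw μ ψ m' m) = 2 * Pair μ n ψ := by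
    simp only [sum_add_distrib]
    rw [sum_comm (f := fun m m' => pw μ ψ m' m), two_mul]
    rfl
  linarith

end Pool.Agent.MP_151d89_pr.H27
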