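import Pool.Agent.MP_151d89_pr.H27.Core

/-!
The energy bound for a cut-off with bounded support, without error term.
-/

set_option autoImplicit false
open MeasureTheory Finset Filter Topology

namespace Pool.Agent.MP_151d89_pr.H27
open Pool.Agent.MP_151d89_pr.H82 Pool.Agent.MP_151d89_pr.H33 Pool.Agent.MP_151d89_pr.H67
open Pool.Agent.MP_151d89_pr.H30
open Classical

/-- Row Energy, second form -/
def En2Stmt : Prop :=
  ∀ μ : Measure Conf, Gibbs μ → NoRay μ → ∀ (N : ℕ) (ψ : Mv → ℝ) (E : ℝ), (∀ m, |ψ m| ≤ 1) →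
    (∀ m, ψ m ≠ 0 → ∀ y ∈ tow m, nrm y ≤ N) → (∀ n, Pair μ n ψ ≤ E) →
      ∀ n, N ≤ n → ∫ f, SG n ψ f ^ 2 ∂μ ≤ E

/-- Row MW: bounded pair energies force a point mass -/
def MWStmt : Prop :=
  ∀ μ : Measure Conf, Gibbs μ → Triv μ → NoRay μ → ∀ E : ℝ,
    (∀ r : ℕ, ∃ (N : ℕ) (ψ : Mv → ℝ), (∀ m, 0 ≤ ψ m ∧ ψ m ≤ 1) ∧
      (∀ m, (∀ y ∈ tow m, nrm y ≤ r) → ψ m = 1) ∧ (∀ m, ψ m ≠ 0 → ∀ y ∈ tow m, nrm y ≤ N) ∧
      ∀ n, Pair μ n ψ ≤ E) →
    ∃ f₀ : Conf, ∀ᵐ f ∂μ, f = f₀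

/-- the number of exits -/
noncomputable def XX (n : ℕ) (f : Conf) : ℝ := ∑ x ∈ box 0 n, ind (Ex n f x)

open NullP in
theorem ag_sub {n : ℕ} {f g : Conf} (hf : Hom f) (hg : Hom g)
    (h' : ∀ y, (n : ℤ) - 2 < nrm y → f y = g y) :
    AG n f - AG n g = (XX n g - XX n f) + (XX n (rf f) - XX n (rf g)) := by
  have d : ∀ f : Conf, Hom f → AG n f = ∑ x ∈ box 0 n, ind (WS f x) -
      ∑ x ∈ box 0 n, ind (EN f x) - XX n f + XX n (rf f) := fun f hf => by
    have c : ∑ x ∈ box 0 n, ind (WS f x ∧ ¬ EN f x) - ∑ x ∈ box 0 n, ind (EN f x ∧ ¬ WS f x) =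
        ∑ x ∈ box 0 n, ind (WS f x) - ∑ x ∈ box 0 n, ind (EN f x) := by
      simp only [← Finset.sum_sub_distrib, ind_diff]
    simp only [AG, dr, Finset.sum_sub_distrib, H27.up_sum]
    rw [dn_sum hf, dn_sum (hom_rf hf), rf_sum, XX, XX]
    linarith
  have hR : (n : ℤ) - 1 + 1 ≤ n := by omega
  have s1 := shift (fun y => ind (WS f y) - ind (WS g y)) hR (fun y hy => by
    have a1 := nrm_dir true y
    have a2 := nrm_dir false y
    simp only [WS]
    rw [h' y (by omega), h' (y - dir true) (by omega), h' (y - dir false) (by omega), sub_self])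
    (dir true + dir false) (by decide)
  have s2 := fun v hv => shift (fun y => (f y : ℝ) - g y) hR
    (fun y hy => by rw [h' y (by omega), sub_self]) v hv
  have t1 := s2 (dir true + dir false) (by decide)
  have t2 := s2 (dir true) (by decide)
  have t3 := s2 (dir false) (by decide)
  have u1 := Finset.sum_congr (s₁ := box 0 n) rfl fun y _ => face hf y
  have u2 := Finset.sum_congr (s₁ := box 0 n) rfl fun y _ => face hg y
  simp only [Finset.sum_sub_distrib, Finset.sum_add_distrib, ← Finset.sum_div] at s1 t1 t2 t3 u1 u2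
  rw [d f hf, d g hg]
  linarith

theorem pt_adj (b : Bool) (x : ℤ × ℤ) (t : ℕ) :
    |(pt b x t).1 - (pt b x (t + 1 : ℕ)).1| + |(pt b x t).2 - (pt b x (t + 1 : ℕ)).2| = 1 := by
  cases b <;> simp [pt_true, pt_false]

theorem run_avoid {s : ℤ} (hs : s = -1 ∨ s = 1) {m : Mv} {f : Conf} (ha : Av s m f) {b : Bool}
    {x : ℤ × ℤ} {l : ℕ} (h : Run b x l f) (h0 : x ∉ tow m) (h1 : pt b x l ∉ tow m) :
    ∀ t : ℕ, t ≤ l → pt b x t ∉ tow m := by
  rcases hs with rfl | rfl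
  · intro t ht
    induction ht using Nat.decreasingInduction with
    | self => exact h1
    | of_succ k hk ih =>
      intro hc
      have a1 := nb_tow ha hc ih (pt_adj b x k)
      rw [h k hk.le, h (k + 1) hk] at a1
      push_cast at a1
      omega
  · intro t
    induction t with
    | zero => intro _; rwa [Nat.cast_zero, pt_zero]
    | succ k ih =>
      intro hk hc
      have a1 := nb_tow ha hc (ih (by omega))
        (by rw [abs_sub_comm, abs_sub_comm (pt b x (k + 1 : ℕ)).2]; exact pt_adj b x k)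
      rw [h k (by omega), h (k + 1) hk] at a1
      push_cast at a1
      omega

theorem ex_move {s : ℤ} (hs : s = -1 ∨ s = 1) {m : Mv} {f g : Conf} (ha : Av s m f) {N n : ℕ}
    (hm : ∀ y ∈ tow m, nrm y ≤ N) (hn : N ≤ n) (h : ∀ y, y ∉ tow m → g y = f y) {x : ℤ × ℤ}
    (hx : (N : ℤ) + 1 < nrm x) (he : Ex n f x) : Ex n g x := by
  obtain ⟨b, l, h1, h2⟩ := he
  have k : ∀ y, x ∈ box y 1 → y ∉ tow m := fun y hy hc => by
    have := hm y hc
    have := nrm_near hy
    omega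
  have k0 := h x (k x (box_one b x).1)
  refine ⟨b, l, ⟨fun t ht => ?_, ?_, ?_, ?_⟩, h2⟩
  · rw [k0, ← h1.1 t ht]
    exact h _ (run_avoid hs ha h1.1 (k x (box_one b x).1)
      (fun hc => by have := hm _ hc; omega) t ht)
  · rw [k0, h _ (k _ (box_one b x).2.2), h1.2.1]
  · rw [k0, h _ (k _ (box_one _ x).2.1), h1.2.2.1]
  · rw [k0, h _ (k _ (box_one _ x).2.2), h1.2.2.2]

theorem XX_sub {m : Mv} {f g : Conf} (ha : Av (-1) m f) (ha' : Av 1 m g) {N n : ℕ}
    (hm : ∀ y ∈ tow m, nrm y ≤ N) (hn : N ≤ n) (h : ∀ y, y ∉ tow m → g y = f y) {p q : Prop}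
    (hp : ¬ p → ∀ x, nrm x ≤ N + 1 → ¬ Ex n f x) (hq : ¬ q → ∀ x, nrm x ≤ N + 1 → ¬ Ex n g x) :
    |XX n f - XX n g| ≤ (box 0 (N + 1)).card * (ind p + ind q) := by
  rw [XX, XX, ← sum_sub_distrib]
  have h1 := ind_mem p
  have h2 := ind_mem q
  calc _ ≤ ∑ x ∈ box 0 n, if x ∈ box 0 (N + 1) then ind p + ind q else 0 := by
        refine (abs_sum_le_sum_abs _ _).trans (sum_le_sum fun x _ => ?_)
        split_ifs with hx
        · have hx' : nrm x ≤ N + 1 := by exact_mod_cast mem_box0.1 hx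
          have a1 : ind (Ex n f x) ≤ ind p := by
            by_cases c : p
            · rw [ind_pos c]; exact (ind_mem _).2
            · rw [ind_neg (hp c x hx')]; exact h1.1
          have a2 : ind (Ex n g x) ≤ ind q := by
            by_cases c : q
            · rw [ind_pos c]; exact (ind_mem _).2
            · rw [ind_neg (hq c x hx')]; exact h2.1
          have a3 := (ind_mem (Ex n f x)).1
          have a4 := (ind_mem (Ex n g x)).1
          rw [abs_le]
          constructor <;> linarith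
        · have hx' : (N : ℤ) + 1 < nrm x := by
            rw [mem_box0] at hx; push_cast at hx; omega
          rw [propext (Iff.intro (ex_move (Or.inl rfl) ha hm hn h hx')
            (ex_move (Or.inr rfl) ha' hm hn (fun y hy => (h y hy).symm) hx')), sub_self, abs_zero]
    _ ≤ _ := by
        rw [← sum_filter, sum_const, nsmul_eq_mul]
        refine mul_le_mul_of_nonneg_right ?_ (add_nonneg h1.1 h2.1)
        exact_mod_cast card_le_card fun x hx => (mem_filter.1 hx).2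

open NullP in
theorem tow_rm {m : Mv} {y : ℤ × ℤ} : y ∈ tow (rm m) ↔ -y ∈ tow m := by
  have k : ∀ (m : Mv) (y : ℤ × ℤ), y ∈ tow (rm m) → -y ∈ tow m := fun m y hy => by
    obtain ⟨t, ht, rfl⟩ := mem_tow.1 hy
    have ht' : t ≤ m.2.2 := ht
    refine mem_tow.2 ⟨m.2.2 - t, by omega, ?_⟩
    simp only [rm, pt_neg, neg_neg, Nat.cast_sub ht']
  exact ⟨k m y, fun h => by simpa only [neg_neg] using k (rm m) (-y) (by rwa [rm_rm])⟩

open NullP in
theorem ag_flip {m : Mv} {f : Conf} (hf : Hom f) (ha : Av (-1) m f) {N n : ℕ}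
    (hm : ∀ y ∈ tow m, nrm y ≤ N) (hn : N + 2 ≤ n) :
    AG n f - AG n (H30.flip m f) ≤ 2 * (box 0 (N + 1)).card *
      (ind (Bad2 {y | nrm y ≤ N + 1} n f) + ind (Bad2 {y | nrm y ≤ N + 1} n (H30.flip m f))) := by
  have k : ∀ f, ¬ Bad2 {y | nrm y ≤ N + 1} n f → ∀ z, nrm z ≤ N + 1 → ¬ Ex n f z :=
    fun f hb z hz ⟨b, l, he⟩ => hb ⟨z, hz, b, l, Or.inl he⟩
  have k' : ∀ f, ¬ Bad2 {y | nrm y ≤ N + 1} n f → ∀ z, nrm z ≤ N + 1 → ¬ Ex n (rf f) z :=
    fun f hb z hz => ex_rf hb z (by simpa [nrm_neg] using hz)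
  have h1 := XX_sub ha (av_flip ha) hm (show N ≤ n by omega) (fun y hy => flip_out f hy) (k _) (k _)
  have h2 := XX_sub (av_rf (av_flip ha)) (av_rf ha) (N := N) (n := n)
    (fun y hy => by simpa [nrm_neg] using hm _ (tow_rm.1 hy)) (by omega)
    (fun y hy => by rw [rf, rf, flip_out f (mt tow_rm.2 hy)]) (k' _) (k' _)
  rw [ag_sub hf (hom_flip hf ha) fun y hy => (flip_out f fun hc => by
    have := hm y hc; omega).symm]
  rw [abs_le] at h1 h2
  linarith [h1.1, h2.1]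

theorem eps2 {μ : Measure Conf} (hμ : Gibbs μ) {N n : ℕ} (hn : N + 2 ≤ n) {m : Mv}
    (hm : ∀ y ∈ tow m, nrm y ≤ N) : ∫ f, dr m f * AG n f ∂μ ≤
      4 * (box 0 (N + 1)).card * μ.real {f | Bad2 {y | nrm y ≤ N + 1} n f} := by
  have := hμ.1
  set U : Set (ℤ × ℤ) := {y | nrm y ≤ N + 1} with hU
  have m2 := meas_ind (meas_Bad2 U n)
  rw [int_dr hμ m (meas_AG n) (AG_abs n)]
  have i1 : Integrable (fun f => ind (Bad2 U n f)) μ := intg m2 fun f => ind_abs _
  have i2 : Integrable (fun f => ind (Av (-1) m f) * ind (Bad2 U n (H30.flip m f))) μ :=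
    intg ((meas_ind (meas_Av _ m)).mul (m2.comp (meas_flip m)))
      fun f => abs_mul_le (ind_abs _) (ind_abs _)
  have h1 : ∫ f, ind (Av (-1) m f) * ind (Bad2 U n (H30.flip m f)) ∂μ ≤
      μ.real {f | Bad2 U n f} := by
    rw [rev_row μ hμ m (fun f => ind (Bad2 U n f)) 1 m2 fun f => ind_abs _,
      ← int_ind μ (meas_Bad2 U n)]
    refine integral_mono (intg ((meas_ind (meas_Av _ m)).mul m2)
      fun f => abs_mul_le (ind_abs _) (ind_abs _)) i1 fun f => ?_
    exact mul_le_of_le_one_left (ind_mem _).1 (ind_mem _).2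
  calc _ ≤ ∫ f, 2 * (box 0 (N + 1)).card * (ind (Bad2 U n f) +
        ind (Av (-1) m f) * ind (Bad2 U n (H30.flip m f))) ∂μ := by
        refine integral_mono_ae (intg (B := 1 * ((II n).card + (II n).card))
          ((meas_ind (meas_Av _ m)).mul ((meas_AG n).sub ((meas_AG n).comp (meas_flip m))))
          fun f => abs_mul_le (ind_abs _) ((abs_sub _ _).trans
            (add_le_add (AG_abs _ _) (AG_abs _ _)))) ((i1.add i2).const_mul _) ?_
        filter_upwards [hμ.2.1] with f hf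
        by_cases ha : Av (-1) m f
        · rw [ind_pos ha, one_mul, one_mul]
          exact ag_flip hf ha hm hn
        · rw [ind_neg ha, zero_mul, zero_mul, add_zero]
          have := (ind_mem (Bad2 U n f)).1
          positivity
    _ ≤ _ := by
        rw [integral_const_mul, integral_add i1 i2, int_ind μ (meas_Bad2 U n)]
        have : (0 : ℝ) ≤ (box 0 (N + 1)).card := Nat.cast_nonneg _
        nlinarith

theorem II_mono {N n : ℕ} (h : N ≤ n) : II N ⊆ II n := fun m hm => by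
  rw [mem_II] at hm ⊢
  refine ⟨by omega, hm.2.1, by omega⟩

theorem II_supp {N n : ℕ} {m : Mv} (hm : m ∈ II n) (h : ∀ y ∈ tow m, nrm y ≤ N) : m ∈ II N :=
  mem_II.2 ⟨h _ (tow_start m), (mem_II.1 hm).2.1, h _ (tow_in m le_rfl)⟩

theorem energy2 {μ : Measure Conf} (hμ : Gibbs μ) {N n : ℕ} (hn : N + 2 ≤ n) {ψ : Mv → ℝ}
    (h1 : ∀ m, |ψ m| ≤ 1) (hD : ∀ m, ψ m ≠ 0 → ∀ y ∈ tow m, nrm y ≤ N) :
    ∫ f, SG n ψ f ^ 2 ∂μ ≤ Pair μ n ψ +
      (II N).card * (4 * (box 0 (N + 1)).card * μ.real {f | Bad2 {y | nrm y ≤ N + 1} n f}) := by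
  have := hμ.1
  have i1 : ∀ m, Integrable (fun f => ψ m ^ 2 * (dr m f * AG n f)) μ := fun m =>
    (intg ((meas_dr m).mul (meas_AG n)) fun f => abs_mul_le (dr_le _ _) (AG_abs _ _)).const_mul _
  have i2 : ∀ m m', Integrable (fun f => -((ψ m - ψ m') ^ 2 * (dr m f * dr m' f))) μ :=
    fun m m' => ((intg ((meas_dr m).mul (meas_dr m'))
      fun f => abs_mul_le (dr_le _ _) (dr_le _ _)).const_mul _).neg
  have e : ∀ f, SG n ψ f ^ 2 = ∑ m ∈ II n, ψ m ^ 2 * (dr m f * AG n f) +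
      1 / 2 * ∑ m ∈ II n, ∑ m' ∈ II n, -((ψ m - ψ m') ^ 2 * (dr m f * dr m' f)) :=
    fun f => alg _ _ _
  simp only [e]
  rw [integral_add (integrable_finsetSum _ fun m _ => i1 m) ((integrable_finsetSum _ fun m _ =>
      integrable_finsetSum _ fun m' _ => i2 m m').const_mul _), integral_const_mul,
    integral_finsetSum _ fun m _ => i1 m,
    integral_finsetSum _ fun m _ => integrable_finsetSum _ fun m' _ => i2 m m']
  set R := 4 * (box 0 (N + 1)).card * μ.real {f | Bad2 {y | nrm y ≤ N + 1} n f} with hR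
  have hR0 : 0 ≤ R := by positivity
  have h2 : ∑ m ∈ II n, ∫ f, ψ m ^ 2 * (dr m f * AG n f) ∂μ ≤ (II N).card * R := by
    rw [← sum_subset (II_mono (show N ≤ n by omega)) fun m hm hm' => by
      simp [show ψ m = 0 from not_not.1 fun hc => hm' (II_supp hm (hD m hc))]]
    refine (sum_le_sum (g := fun _ => R) fun m _ => ?_).trans (by simp)
    rw [integral_const_mul]
    by_cases h0 : ψ m = 0
    · simpa [h0] using hR0
    have h3 : ψ m ^ 2 ≤ 1 := by simpa using sq_le_sq' (abs_le.1 (h1 m)).1 (abs_le.1 (h1 m)).2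
    rcases le_total (∫ f, dr m f * AG n f ∂μ) 0 with h4 | h4
    · exact (mul_nonpos_of_nonneg_of_nonpos (sq_nonneg _) h4).trans hR0
    · exact (mul_le_of_le_one_left h4 h3).trans (eps2 hμ hn (hD m h0))
  have h3 : ∑ m ∈ II n, ∫ f, ∑ m' ∈ II n, -((ψ m - ψ m') ^ 2 * (dr m f * dr m' f)) ∂μ ≤
      ∑ m ∈ II n, ∑ m' ∈ II n, (pw μ ψ m m' + pw μ ψ m' m) :=
    sum_le_sum fun m _ => by
      rw [integral_finsetSum _ fun m' _ => i2 m m']
      refine sum_le_sum fun m' _ => ?_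
      rw [integral_neg, integral_const_mul]
      exact pair_le hμ ψ m m'
  have h4 : ∑ m ∈ II n, ∑ m' ∈ II n, (pw μ ψ m m' + pw μ ψ m' m) = 2 * Pair μ n ψ := by
    simp only [sum_add_distrib]
    rw [sum_comm (f := fun m m' => pw μ ψ m' m), two_mul]
    rfl
  linarith

theorem bad2_bad3 {s k n : ℕ} (hn : s + k ≤ n) {f : Conf} (h : Bad2 {y | nrm y ≤ s} n f) :
    Bad3 s k f := by
  obtain ⟨z, hz, b, l, ⟨a1, a2⟩ | ⟨a1, a2⟩⟩ := h
  · exact run_bad3 a1.1 (Nat.zero_le l) le_rfl (by simpa [pt_zero] using hz) (by omega)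
  · refine run_bad3 a1.1 le_rfl (Nat.zero_le l) ?_ ?_
    · simpa [NullP.pt_pt, pt_zero] using hz
    · rw [Nat.cast_zero, pt_zero]
      omega

theorem SG_stab {N n : ℕ} (hn : N ≤ n) {ψ : Mv → ℝ}
    (hD : ∀ m, ψ m ≠ 0 → ∀ y ∈ tow m, nrm y ≤ N) (f : Conf) : SG n ψ f = SG N ψ f :=
  (sum_subset (II_mono hn) fun m hm hm' => by
    simp [show ψ m = 0 from not_not.1 fun hc => hm' (II_supp hm (hD m hc))]).symm

theorem en2_row : En2Stmt := by
  intro μ hμ hN N ψ E h1 hD hE n hn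
  have := hμ.1
  refine le_of_forall_pos_le_add fun ε hε => ?_
  set c : ℝ := (II N).card * (4 * (box 0 (N + 1)).card) with hc
  have hc0 : 0 ≤ c := by positivity
  obtain ⟨k, hk⟩ := bad3_small hN (N + 1) (ε := ε / (c + 1)) (by positivity)
  have h2 := energy2 hμ (n := N + 1 + k + 1) (by omega) h1 hD
  have h3 : μ.real {f | Bad2 {y | nrm y ≤ N + 1} (N + 1 + k + 1) f} ≤ ε / (c + 1) :=
    (measureReal_mono (fun f hf => bad2_bad3 (s := N + 1) (k := k) (Nat.le_succ _)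
      (by simpa using hf)) (measure_ne_top _ _)).trans hk.le
  have h4 : c * (ε / (c + 1)) ≤ ε := by
    rw [← mul_div_assoc, div_le_iff₀ (by positivity)]
    nlinarith
  have h5 := mul_le_mul_of_nonneg_left h3 hc0
  simp only [SG_stab (show N ≤ N + 1 + k + 1 by omega) hD] at h2
  simp only [SG_stab hn hD]
  have h6 := hE (N + 1 + k + 1)
  rw [← mul_assoc, ← hc] at h2
  linarith

theorem mw_row : MWStmt := by
  intro μ hμ hT hN E H
  refine core_row μ hμ hT hN E fun r => ?_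
  obtain ⟨N, ψ, a1, a2, a3, a4⟩ := H r
  exact ⟨max r N, ψ, le_max_left _ _, a1, a2, en2_row μ hμ hN N ψ E
    (fun m => by rw [abs_of_nonneg (a1 m).1]; exact (a1 m).2) a3 a4 _ (le_max_right _ _)⟩

end Pool.Agent.MP_151d89_pr.H27
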