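import Pool.Agent.MP_151d89_pr.H27.Spec

/-!
The list of neighbouring pairs of towers and the bound for one pair.
-/

set_option autoImplicit false
open MeasureTheory Finset

namespace Pool.Agent.MP_151d89_pr.H27
open Pool.Agent.MP_151d89_pr.H82 Pool.Agent.MP_151d89_pr.H33 Pool.Agent.MP_151d89_pr.H67
open Pool.Agent.MP_151d89_pr.H30
open Classical

/-- two towers at graph distance at most one -/
def Near (m m' : Mv) : Prop := ∃ y ∈ tow m, ∃ y' ∈ tow m', |y.1 - y'.1| + |y.2 - y'.2| ≤ 1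

theorem near_comm {m m' : Mv} (h : Near m m') : Near m' m := by
  obtain ⟨y, hy, y', hy', h⟩ := h
  exact ⟨y', hy', y, hy, by rwa [abs_sub_comm y'.1, abs_sub_comm y'.2]⟩

theorem av_run {s : ℤ} {b : Bool} {x : ℤ × ℤ} {l : ℕ} {f : Conf} (h : Av s (b, x, l) f) {u : ℤ}
    (h0 : 0 ≤ u) (h1 : u ≤ l) : f (pt b x u) = f x + u := by
  obtain ⟨u, rfl⟩ := Int.eq_ofNat_of_zero_le h0
  exact h.1 u (by exact_mod_cast h1)

theorem av_side {s : ℤ} {b : Bool} {x : ℤ × ℤ} {l : ℕ} {f : Conf} (h : Av s (b, x, l) f) {u : ℤ}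
    (h0 : 0 ≤ u) (h1 : u ≤ l) : f (pt b x u + dir (!b)) = f x + u + s ∧
      f (pt b x u - dir (!b)) = f x + u + s := by
  obtain ⟨u, rfl⟩ := Int.eq_ofNat_of_zero_le h0
  exact h.2.2.2 u (by exact_mod_cast h1)

theorem av_fwd {b : Bool} {x : ℤ × ℤ} {l : ℕ} {f : Conf} (h : Av 1 (b, x, l) f) {u : ℤ}
    (h0 : 0 ≤ u) (h1 : u ≤ l + 1) : f (pt b x u) = f x + u := by
  rcases h1.lt_or_eq with h2 | rfl
  · exact av_run h h0 (by omega)
  · exact h.2.2.1.trans (add_assoc _ _ _)

theorem av_bwd {b : Bool} {x : ℤ × ℤ} {l : ℕ} {f : Conf} (h : Av (-1) (b, x, l) f) {u : ℤ}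
    (h0 : -1 ≤ u) (h1 : u ≤ l) : f (pt b x u) = f x + u := by
  rcases h0.lt_or_eq with h2 | rfl
  · exact av_run h (by omega) h1
  · exact h.2.1

theorem five (b : Bool) {y y' : ℤ × ℤ} (h : |y.1 - y'.1| + |y.2 - y'.2| ≤ 1) :
    y' = y ∨ y' = y + dir b ∨ y' = y - dir b ∨ y' = y + dir (!b) ∨ y' = y - dir (!b) := by
  cases b <;> simp only [Bool.not_true, Bool.not_false, dir, Prod.ext_iff,
      Prod.fst_add, Prod.snd_add, Prod.fst_sub, Prod.snd_sub] <;>
    simp only [Int.abs_eq_natAbs] at h <;> omega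

theorem pt_add (b : Bool) (x w : ℤ × ℤ) (t : ℤ) : pt b (x + w) t = pt b x t + w := by
  simp only [pt]; abel

theorem pt_pred (b : Bool) (x : ℤ × ℤ) (t : ℤ) : pt b x (t - 1) = pt b x t - dir b := by
  simp only [pt, sub_smul, one_smul]; abel

theorem pt_shift {b : Bool} {x x' w : ℤ × ℤ} {t t' : ℤ} (e : pt b x' t' = pt b x t + w) (u : ℤ) :
    pt b x' u = pt b x (t - t' + u) + w := by
  have : x' = x + t • dir b + w - t' • dir b := by rw [← pt, ← e, pt]; abel
  rw [this]
  simp only [pt, add_smul, sub_smul]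
  abel

theorem par_side {b : Bool} {x x' w : ℤ × ℤ} {l l' : ℕ} {f : Conf} (h : Av (-1) (b, x, l) f)
    (h' : Av 1 (b, x', l') f) (hw : w = dir (!b) ∨ w = -dir (!b)) {t t' : ℕ} (ht : t ≤ l)
    (ht' : t' ≤ l') (e : pt b x' t' = pt b x t + w) :
    ∃ i : ℕ, i ≤ l' ∧ l' ≤ i + l ∧ pt b x' i = x + w := by
  have S : ∀ u : ℤ, 0 ≤ u → u ≤ l → f (pt b x u + w) = f x + u + -1 := fun u h0 h1 => by
    rcases hw with rfl | rfl
    · exact (av_side h h0 h1).1
    · rw [← sub_eq_add_neg]; exact (av_side h h0 h1).2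
  have S' : ∀ u : ℤ, 0 ≤ u → u ≤ l' → f (pt b x' u - w) = f x' + u + 1 := fun u h0 h1 => by
    rcases hw with rfl | rfl
    · exact (av_side h' h0 h1).2
    · rw [sub_neg_eq_add]; exact (av_side h' h0 h1).1
  have k := pt_shift e
  have h1 : t ≤ t' := by
    by_contra hc
    have a1 := S (t - t' + 0) (by omega) (by omega)
    have a2 := S (t - t' + -1) (by omega) (by omega)
    have a3 : f (pt b x' (-1)) = f x' + 1 := h'.2.1
    rw [← k] at a1 a2
    rw [pt_zero] at a1
    omega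
  obtain ⟨i, rfl⟩ := Nat.exists_eq_add_of_le h1
  have e0 : pt b x' i = x + w := by
    rw [k, show (t : ℤ) - ((t + i : ℕ) : ℤ) + i = 0 by push_cast; ring, pt_zero]
  refine ⟨i, by omega, ?_, e0⟩
  by_contra hc
  have a1 := S' (i + l + 1) (by omega) (by omega)
  have a2 : f (pt b x (l + 1)) = f x + l + -1 := h.2.2.1
  have a3 := av_run h' (u := i) (by omega) (by omega)
  have a4 := S 0 le_rfl (by omega)
  rw [k, show (t : ℤ) - ((t + i : ℕ) : ℤ) + (i + l + 1) = l + 1 by push_cast; ring,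
    add_sub_cancel_right] at a1
  rw [pt_zero, ← e0] at a4
  omega

theorem pair_par {b : Bool} {x x' : ℤ × ℤ} {l l' : ℕ} {f : Conf} (h : Av (-1) (b, x, l) f)
    (h' : Av 1 (b, x', l') f) (hn : Near (b, x, l) (b, x', l')) : PL (b, x, l) (b, x', l') := by
  obtain ⟨y, hy, y', hy', hn⟩ := hn
  obtain ⟨t, ht, rfl⟩ := mem_tow.1 hy
  obtain ⟨t', ht', rfl⟩ := mem_tow.1 hy'
  dsimp only at ht ht' hn
  refine Or.inl ⟨rfl, ?_⟩
  dsimp only
  have no : ∀ u u' : ℤ, 0 ≤ u → u ≤ l → 0 ≤ u' → u' ≤ l' → pt b x' u' ≠ pt b x u := by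
    intro u u' a1 a2 a3 a4 e
    have c1 := av_run h a1 a2
    have c2 := av_run h' a3 a4
    have c3 := (av_side h a1 a2).1
    have c4 := (av_side h' a3 a4).1
    rw [e] at c2 c4
    omega
  rcases five b hn with e | e | e | e | e
  · exact absurd e (no _ _ (by omega) (by omega) (by omega) (by omega))
  · left
    have e1 : t = l := by
      by_contra hc
      exact no (t + 1) t' (by omega) (by omega) (by omega) (by omega) (by rw [e, NullP.pt_succ])
    have e2 : t' = 0 := by
      by_contra hc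
      exact no t (t' - 1) (by omega) (by omega) (by omega) (by omega)
        (by rw [pt_pred, e, add_sub_cancel_right])
    rw [e1, e2, Nat.cast_zero, pt_zero] at e
    rw [e, NullP.pt_succ]
  · right; left
    have e1 : t = 0 := by
      by_contra hc
      exact no (t - 1) t' (by omega) (by omega) (by omega) (by omega) (by rw [e, pt_pred])
    have e2 : t' = l' := by
      by_contra hc
      exact no t (t' + 1) (by omega) (by omega) (by omega) (by omega)
        (by rw [NullP.pt_succ, e, sub_add_cancel])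
    rw [e1, e2, Nat.cast_zero, pt_zero] at e
    rw [NullP.pt_succ, e, sub_add_cancel]
  · obtain ⟨i, a1, a2, a3⟩ := par_side h h' (Or.inl rfl) ht ht' e
    exact Or.inr (Or.inr ⟨i, a1, a2, Or.inl a3⟩)
  · obtain ⟨i, a1, a2, a3⟩ := par_side h h' (Or.inr rfl) ht ht' (e.trans (sub_eq_add_neg _ _))
    exact Or.inr (Or.inr ⟨i, a1, a2, Or.inr (a3.trans (sub_eq_add_neg _ _).symm)⟩)

theorem pair_orth {b : Bool} {x x' : ℤ × ℤ} {l l' : ℕ} {f : Conf} (h : Av (-1) (b, x, l) f)
    (h' : Av 1 (!b, x', l') f) (hn : Near (b, x, l) (!b, x', l')) :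
    PL (b, x, l) (!b, x', l') := by
  obtain ⟨y, hy, y', hy', hn⟩ := hn
  obtain ⟨t, ht, rfl⟩ := mem_tow.1 hy
  obtain ⟨t', ht', rfl⟩ := mem_tow.1 hy'
  dsimp only at ht ht' hn
  refine Or.inr ⟨rfl, ?_⟩
  dsimp only
  have no : ∀ u u' : ℤ, 0 ≤ u → u ≤ l → 0 ≤ u' → u' ≤ l' → pt (!b) x' u' ≠ pt b x u := by
    intro u u' a1 a2 a3 a4 e
    have c1 := av_run h a1 a2
    have c2 := av_run h' a3 a4
    have c3 := (av_side h a1 a2).1
    have c4 := av_fwd h' (u := u' + 1) (by omega) (by omega)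
    rw [NullP.pt_succ] at c4
    rw [e] at c2 c4
    omega
  have c1 := av_run h (u := t) (by omega) (by omega)
  have c2 := av_run h' (u := t') (by omega) (by omega)
  have c3 := av_side h (u := t) (by omega) (by omega)
  have c4 := av_side h' (u := t') (by omega) (by omega)
  rw [Bool.not_not] at c4
  rcases five b hn with e | e | e | e | e
  · exact absurd e (no _ _ (by omega) (by omega) (by omega) (by omega))
  · right; right; right
    have e1 : t = l := by
      by_contra hc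
      exact no (t + 1) t' (by omega) (by omega) (by omega) (by omega) (by rw [e, NullP.pt_succ])
    have e2 : t' = l' := by
      by_contra hc
      have a1 := (av_side h' (u := t' + 1) (by omega) (by omega)).2
      rw [Bool.not_not, NullP.pt_succ, e, add_right_comm, add_sub_cancel_right] at a1
      rw [e, add_sub_cancel_right] at c4
      omega
    rw [← e2, e, e1, NullP.pt_succ]
  · right; right; left
    have e1 : t = 0 := by
      by_contra hc
      exact no (t - 1) t' (by omega) (by omega) (by omega) (by omega) (by rw [e, pt_pred])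
    have e2 : t' = l' := by
      by_contra hc
      have a1 := (av_side h' (u := t' + 1) (by omega) (by omega)).1
      rw [Bool.not_not, NullP.pt_succ, e, add_right_comm, sub_add_cancel] at a1
      rw [e, sub_add_cancel] at c4
      omega
    rw [← e2, e, e1, ← pt_pred, Nat.cast_zero, zero_sub]
  · left
    have e2 : t' = 0 := by
      by_contra hc
      exact no t (t' - 1) (by omega) (by omega) (by omega) (by omega)
        (by rw [pt_pred, e, add_sub_cancel_right])
    have e1 : t = 0 := by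
      by_contra hc
      have a1 := (av_side h (u := t - 1) (by omega) (by omega)).1
      rw [pt_pred, ← add_sub_right_comm, ← e] at a1
      rw [← e] at c3
      omega
    rw [e1, e2, Nat.cast_zero, pt_zero, pt_zero] at e
    exact e
  · right; left
    have e2 : t' = l' := by
      by_contra hc
      exact no t (t' + 1) (by omega) (by omega) (by omega) (by omega)
        (by rw [NullP.pt_succ, e, sub_add_cancel])
    have e1 : t = 0 := by
      by_contra hc
      have a1 := (av_side h (u := t - 1) (by omega) (by omega)).2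
      rw [pt_pred, sub_right_comm, ← e] at a1
      rw [← e] at c3
      omega
    rw [NullP.pt_succ, ← e2, e, e1, sub_add_cancel, Nat.cast_zero, pt_zero]

/-- the pair list -/
theorem pair_list {m m' : Mv} {f : Conf} (h : Av (-1) m f) (h' : Av 1 m' f) (hn : Near m m') :
    PL m m' := by
  obtain ⟨b, x, l⟩ := m
  obtain ⟨b', x', l'⟩ := m'
  by_cases e : b' = b
  · subst e
    exact pair_par h h' hn
  · obtain rfl : b' = !b := by cases b <;> cases b' <;> simp at e ⊢
    exact pair_orth h h' hn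

/-- availability depends only on the sites at graph distance at most one -/
theorem av_loc {s : ℤ} {m : Mv} {f g : Conf}
    (h : ∀ y ∈ tow m, ∀ z : ℤ × ℤ, |z.1 - y.1| + |z.2 - y.2| ≤ 1 → g z = f z) (hf : Av s m f) :
    Av s m g := by
  obtain ⟨b, x, l⟩ := m
  have k : ∀ t : ℕ, t ≤ l → ∀ z : ℤ × ℤ, |z.1 - (pt b x t).1| + |z.2 - (pt b x t).2| ≤ 1 →
      g z = f z := fun t ht => h _ (tow_in (b, x, l) ht)
  have k0 : g x = f x := k 0 (Nat.zero_le _) x (by simp [pt_zero])
  obtain ⟨a1, a2, a3, a4⟩ := hf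
  refine ⟨fun t ht => ?_, ?_, ?_, fun t ht => ⟨?_, ?_⟩⟩ <;> dsimp only at *
  · rw [k t ht _ (by simp), k0, a1 t ht]
  · rw [k 0 (Nat.zero_le _) _ (by cases b <;> simp [pt_true, pt_false]), k0, a2]
  · rw [k l le_rfl _ (by cases b <;> simp [pt_true, pt_false]), k0, a3]
  · rw [k t ht _ (by cases b <;> simp [dir]), k0, (a4 t ht).1]
  · rw [k t ht _ (by cases b <;> simp [dir]), k0, (a4 t ht).2]

theorem dr_loc {m : Mv} {f g : Conf}
    (h : ∀ y ∈ tow m, ∀ z : ℤ × ℤ, |z.1 - y.1| + |z.2 - y.2| ≤ 1 → g z = f z) :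
    dr m f = dr m g := by
  have e : ∀ s, Av s m f ↔ Av s m g := fun s =>
    ⟨av_loc h, av_loc fun y hy z hz => (h y hy z hz).symm⟩
  simp only [dr, e]

theorem far_zero {μ : Measure Conf} (hμ : Gibbs μ) {m n : Mv} (h : ¬ Near m n) :
    ∫ f, dr m f * dr n f ∂μ = 0 := by
  rw [int_dr hμ m (meas_dr n) (dr_le n)]
  have e : ∀ f, dr n f = dr n (H30.flip m f) := fun f =>
    dr_loc fun y hy z hz => flip_out f fun hz' => h ⟨z, hz', y, hy, hz⟩
  simp only [← e, sub_self, mul_zero, integral_zero]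

/-- the weight of a pair -/
noncomputable def pw (μ : Measure Conf) (ψ : Mv → ℝ) (m m' : Mv) : ℝ :=
  if PL m m' then (ψ m - ψ m') ^ 2 * μ.real {f | Av (-1) m f ∧ Av 1 m' f} else 0

theorem pw_nonneg (μ : Measure Conf) (ψ : Mv → ℝ) (m m' : Mv) : 0 ≤ pw μ ψ m m' := by
  unfold pw; split_ifs <;> positivity

theorem pw_near (μ : Measure Conf) (ψ : Mv → ℝ) {m m' : Mv} (h : Near m m') :
    pw μ ψ m m' = (ψ m - ψ m') ^ 2 * μ.real {f | Av (-1) m f ∧ Av 1 m' f} := by
  unfold pw
  split_ifs with hp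
  · rfl
  · have : {f | Av (-1) m f ∧ Av 1 m' f} = ∅ :=
      Set.eq_empty_of_forall_notMem fun f hf => hp (pair_list hf.1 hf.2 h)
    simp [this]

theorem pair_le {μ : Measure Conf} (hμ : Gibbs μ) (ψ : Mv → ℝ) (m n : Mv) :
    -((ψ m - ψ n) ^ 2 * ∫ f, dr m f * dr n f ∂μ) ≤ pw μ ψ m n + pw μ ψ n m := by
  have := hμ.1
  by_cases h : Near m n
  swap
  · rw [far_zero hμ h]
    simpa using add_nonneg (pw_nonneg μ ψ m n) (pw_nonneg μ ψ n m)
  have mA : ∀ m n : Mv, MeasurableSet {f | Av (-1) m f ∧ Av 1 n f} := fun m n =>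
    (meas_Av _ _).inter (meas_Av _ _)
  have iA : ∀ m n : Mv, Integrable (fun f => ind (Av (-1) m f ∧ Av 1 n f)) μ := fun m n =>
    intg (meas_ind (mA m n)) fun f => ind_abs _
  rw [pw_near μ ψ h, pw_near μ ψ (near_comm h), ← neg_sub (ψ m) (ψ n), neg_sq, ← mul_add,
    ← mul_neg, ← int_ind μ (mA m n), ← int_ind μ (mA n m), ← integral_add (iA m n) (iA n m),
    ← integral_neg]
  refine mul_le_mul_of_nonneg_left (integral_mono (intg (μ := μ) ((meas_dr m).mul (meas_dr n))
    fun f => abs_mul_le (dr_le _ _) (dr_le _ _)).neg ((iA m n).add (iA n m)) fun f => ?_)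
    (sq_nonneg _)
  simp only [dr, ind]
  by_cases a1 : Av (-1) m f <;> by_cases a2 : Av 1 m f <;> by_cases a3 : Av (-1) n f <;>
    by_cases a4 : Av 1 n f <;> simp [a1, a2, a3, a4]

end Pool.Agent.MP_151d89_pr.H27
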