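import Pool.Agent.MP_151d89_pr.H67E.Spec
import Pool.Agent.MP_151d89_pr.H35.Flip

/-!
The pairs in which the up tower starts at the side of the start of the down tower.
-/

set_option autoImplicit false
open MeasureTheory Finset

namespace Pool.Agent.MP_151d89_pr.H27
open Pool.Agent.MP_151d89_pr.H82 Pool.Agent.MP_151d89_pr.H33 Pool.Agent.MP_151d89_pr.H67
  Pool.Agent.MP_151d89_pr.H30 Pool.Agent.MP_151d89_pr.H45 Pool.Agent.MP_151d89_pr.H67E
open Pool.Agent.MP_151d89_pr.H30W (Hi Lo)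
open Classical

namespace XR4

variable {μ : Measure Conf} {φ : ℤ × ℤ → ℝ} {U : Finset (ℤ × ℤ)} {lam TV : ℝ}
  {A : Bool → ℤ × ℤ → ℝ}

/-- the tower without its first site -/
def tl (m : Mv) : Mv := (m.1, m.2.1 + dir m.1, m.2.2 - 1)

/-- the oscillation at the first site of the tail -/
noncomputable def ot (φ : ℤ × ℤ → ℝ) (m : Mv) : ℝ := if m.2.2 = 0 then 0 else os φ (tl m) 0

theorem os0 (φ : ℤ × ℤ → ℝ) (m : Mv) : os φ m 0 = φ m.2.1 - ps φ m := by
  rw [os, Nat.cast_zero, pt_zero]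

theorem os_tl (φ : ℤ × ℤ → ℝ) (m : Mv) : os φ m 0 ≤ ww φ m.1 m.2.1 + ot φ m := by
  have w0 := ww_nonneg φ m.1 m.2.1
  have o0 : 0 ≤ ot φ m := by
    unfold ot; split_ifs
    · exact le_rfl
    · exact os_nonneg φ _ (Nat.zero_le _)
  obtain ⟨t, ht, e⟩ := ps_ex φ m
  rw [os0, e]
  cases t with
  | zero => rw [Nat.cast_zero, pt_zero]; linarith
  | succ t =>
    have h1 := ps_le φ (tl m) (t := t) (by simp only [tl]; omega)
    have h2 : pt (tl m).1 (tl m).2.1 t = pt m.1 m.2.1 (t + 1 : ℕ) := by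
      simp only [tl, pt_add]; push_cast; rw [NullP.pt_succ]
    have h3 : φ m.2.1 - φ (m.2.1 + dir m.1) ≤ ww φ m.1 m.2.1 := by
      rw [ww, abs_sub_comm]; exact le_abs_self _
    rw [ot, if_neg (by omega), os0, ← h2]
    simp only [tl] at h1 ⊢
    linarith

theorem delta (φ : ℤ × ℤ → ℝ) {m m' : Mv} (h : R4 m m') : (ps φ m - ps φ m') ^ 2 ≤
    3 * (ww φ (!m.1) m.2.1 ^ 2 + ww φ m.1 m.2.1 ^ 2) + 3 * os φ m' 0 ^ 2 + 3 * ot φ m ^ 2 := by
  have a1 := os_tl φ m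
  have a2 := os_nonneg φ m (Nat.zero_le _)
  have a3 := os_nonneg φ m' (Nat.zero_le _)
  have a4 := abs_le.1 (le_refl (ww φ (!m.1) m.2.1))
  have a5 := os0 φ m
  have a6 := os0 φ m'
  have a7 := ww_nonneg φ m.1 m.2.1
  rw [h.2, h.1] at a6
  rcases le_total (ps φ m') (ps φ m) with e | e
  · have : (ps φ m - ps φ m') ^ 2 ≤ (ww φ (!m.1) m.2.1 + os φ m' 0) ^ 2 :=
      pow_le_pow_left₀ (by linarith) (by linarith [a4.1]) 2
    nlinarith [sq_nonneg (ww φ (!m.1) m.2.1 - os φ m' 0), sq_nonneg (ww φ (!m.1) m.2.1),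
      sq_nonneg (os φ m' 0), sq_nonneg (ww φ m.1 m.2.1), sq_nonneg (ot φ m)]
  · have : (ps φ m' - ps φ m) ^ 2 ≤ (ww φ (!m.1) m.2.1 + ww φ m.1 m.2.1 + ot φ m) ^ 2 :=
      pow_le_pow_left₀ (by linarith) (by linarith [a4.2]) 2
    nlinarith [sq_nonneg (ww φ (!m.1) m.2.1 - ww φ m.1 m.2.1), sq_nonneg (os φ m' 0),
      sq_nonneg (ww φ (!m.1) m.2.1 - ot φ m), sq_nonneg (ww φ m.1 m.2.1 - ot φ m)]

theorem sumA (n : ℕ) (m : Mv) {h : Mv → ℝ} (h0 : ∀ m', 0 ≤ h m') :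
    ∑ m' ∈ II n, (if R4 m m' then h m' else 0) ≤
      ∑ l ∈ range (2 * n + 1), h (!m.1, m.2.1 + dir (!m.1), l) := by
  have k : ∀ m', (if R4 m m' then h m' else 0) ≠ 0 →
      m' = (!m.1, m.2.1 + dir (!m.1), m'.2.2) := fun m' a => by
    obtain ⟨e1, e2⟩ : R4 m m' := not_not.1 fun c => a (if_neg c)
    rw [← e1, ← e2]
  refine sum_inj _ _ (fun m' => m'.2.2) (fun a ha _ => mem_range.2 ?_)
    (fun a _ a' _ e e' e2 => by rw [k a e, k a' e', e2]) (fun a _ e => ?_) fun _ _ => h0 _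
  · exact Nat.lt_succ_of_le (mem_TT.1 (II_TT ha)).2
  · rw [← k a e]
    split_ifs
    · exact le_rfl
    · exact h0 _

theorem sumB (n : ℕ) (m' : Mv) {h : Mv → ℝ} (h0 : ∀ m, 0 ≤ h m) :
    ∑ m ∈ II n, (if R4 m m' then h m else 0) ≤
      ∑ l ∈ range (2 * n + 1), h (!m'.1, m'.2.1 - dir m'.1, l) := by
  have k : ∀ m, (if R4 m m' then h m else 0) ≠ 0 →
      m = (!m'.1, m'.2.1 - dir m'.1, m.2.2) := fun m a => by
    obtain ⟨e1, e2⟩ : R4 m m' := not_not.1 fun c => a (if_neg c)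
    rw [e2, add_sub_cancel_right, e1, Bool.not_not]
  refine sum_inj _ _ (fun m => m.2.2) (fun a ha _ => mem_range.2 ?_)
    (fun a _ a' _ e e' e2 => by rw [k a e, k a' e', e2]) (fun a _ e => ?_) fun _ _ => h0 _
  · exact Nat.lt_succ_of_le (mem_TT.1 (II_TT ha)).2
  · rw [← k a e]
    split_ifs
    · exact le_rfl
    · exact h0 _

theorem first_le (μ : Measure Conf) (φ : ℤ × ℤ → ℝ) (m : Mv) :
    os φ m 0 ^ 2 * pp μ m ≤ pp μ m * ∑ t ∈ range (m.2.2 + 1), os φ m t ^ 2 := by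
  rw [mul_comm]
  exact mul_le_mul_of_nonneg_left (single_le_sum (f := fun t => os φ m t ^ 2)
    (fun _ _ => sq_nonneg _) (mem_range.2 (Nat.succ_pos _))) (pp_nonneg μ m)

theorem part1 (h : Dat μ φ U lam TV A) (n : ℕ) : ∑ m ∈ II n, ∑ m' ∈ II n, (if R4 m m' then
    (ww φ (!m.1) m.2.1 ^ 2 + ww φ m.1 m.2.1 ^ 2) * pq μ m m' else 0) ≤ 20 * (lam * TV) := by
  have := h.gib.1
  have h1 : ∀ (b : Bool) (x : ℤ × ℤ), ∑ l ∈ range (2 * n + 1), ∑ l' ∈ range (2 * n + 1),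
      (ww φ (!b) x ^ 2 + ww φ b x ^ 2) * pq μ (b, x, l) (!b, x + dir (!b), l') ≤
      5 * lam * ww φ (!b) x + 5 * lam * ww φ b x := fun b x => by
    simp only [← mul_sum]
    rw [sum_comm]
    refine (mul_le_mul_of_nonneg_left (H35.pl4_link h.gib b x _ _) (by positivity)).trans ?_
    rw [add_mul]
    refine add_le_add (h.edge _ x measureReal_nonneg measureReal_le_one ?_)
      (h.edge _ x measureReal_nonneg measureReal_le_one ?_)
    · rw [Bool.not_not]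
      exact (mul_le_mul_of_nonneg_right (measureReal_mono fun f a => a.1) (h.A0 _ _)).trans
        (h.a0 b x)
    · exact (mul_le_mul_of_nonneg_right (measureReal_mono fun f a => a.2.1) (h.A0 _ _)).trans
        (h.a0 (!b) x)
  refine (sum_le_sum fun m _ => sumA n m fun m' =>
    mul_nonneg (by positivity) (pq_nonneg μ m m')).trans ?_
  refine (sum_le_sum_of_subset_of_nonneg (fun m => II_TT) fun m _ _ => sum_nonneg fun l _ =>
    mul_nonneg (by positivity) (pq_nonneg μ _ _)).trans ?_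
  rw [TT, sum_product]
  simp only [sum_product]
  refine (sum_le_sum (g := fun _ => 10 * (lam * TV)) fun b _ =>
    (sum_le_sum fun x _ => h1 b x).trans ?_).trans (by simp; linarith)
  rw [sum_add_distrib, ← mul_sum, ← mul_sum]
  have a1 := mul_le_mul_of_nonneg_left (h.tv b (box 0 n)) h.lam0
  have a2 := mul_le_mul_of_nonneg_left (h.tv (!b) (box 0 n)) h.lam0
  linarith

theorem part2 (hμ : Gibbs μ) (φ : ℤ × ℤ → ℝ) (n : ℕ) : ∑ m ∈ II n, ∑ m' ∈ II n,
    (if R4 m m' then os φ m' 0 ^ 2 * pq μ m m' else 0) ≤ QQ μ n φ := by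
  rw [sum_comm]
  refine (sum_le_sum fun m' _ => (sumB n m' fun m =>
    mul_nonneg (sq_nonneg _) (pq_nonneg μ m m')).trans ?_).trans
    (sum_le_sum_of_subset_of_nonneg (fun m => II_TT) fun m _ _ =>
      mul_nonneg (pp_nonneg μ m) (sum_nonneg fun _ _ => sq_nonneg _))
  rw [← mul_sum]
  refine le_trans (mul_le_mul_of_nonneg_left ?_ (sq_nonneg _)) (first_le μ φ m')
  exact (H35.dn_disj hμ _ _ _ (meas_Av 1 m')).trans_eq (p_rev hμ m').symm

theorem part3 (hμ : Gibbs μ) (φ : ℤ × ℤ → ℝ) (n : ℕ) : ∑ m ∈ II n, ∑ m' ∈ II n,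
    (if R4 m m' then ot φ m ^ 2 * pq μ m m' else 0) ≤ QQ μ n φ := by
  have k : ∀ m : Mv, ot φ m ^ 2 * pp μ (tl m) ≠ 0 → m.2.2 ≠ 0 := fun m a c => a (by simp [ot, c])
  refine (sum_le_sum (g := fun m => ot φ m ^ 2 * pp μ (tl m)) fun m _ => (sumA n m fun m' =>
    mul_nonneg (sq_nonneg _) (pq_nonneg μ m m')).trans ?_).trans
    (sum_inj _ _ tl (fun m hm a => ?_) (fun m _ m' _ a a' e => ?_) (fun m _ a => ?_) fun m _ =>
      mul_nonneg (pp_nonneg μ m) (sum_nonneg fun _ _ => sq_nonneg _))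
  · rw [← mul_sum]
    obtain ⟨b, x, l⟩ := m
    cases l with
    | zero => simp [ot]
    | succ l => exact mul_le_mul_of_nonneg_left (H35.pl4_tail hμ b x l _) (sq_nonneg _)
  · have a1 := k m a
    have a2 := (mem_TT.1 (II_TT hm)).2
    rw [mem_II] at hm
    have a3 := nrm_conv m.1 m.2.1 (t := 1) (l := m.2.2) (by omega)
    rw [Nat.cast_one, pt_one] at a3
    exact mem_TT.2 ⟨by simp only [tl]; omega, by simp only [tl]; omega⟩
  · have a1 := k m a
    have a2 := k m' a'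
    obtain ⟨b, x, l⟩ := m
    obtain ⟨b', x', l'⟩ := m'
    simp only [tl, Prod.mk.injEq] at e a1 a2 ⊢
    obtain ⟨rfl, e1, e2⟩ := e
    exact ⟨rfl, add_right_cancel e1, by omega⟩
  · rw [ot, if_neg (k m a)]
    exact first_le μ φ _

end XR4

open XR4 in
theorem r4_row : PStmt R4 := by
  intro μ φ U lam TV A h n
  have h1 := part1 h n
  have h2 := part2 h.gib φ n
  have h3 := part3 h.gib φ n
  have h4 := QQ_nonneg μ n φ
  have h5 := mul_nonneg h.lam0 h.tv0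
  have h6 : 0 ≤ lam ^ 2 * (U.card + LL μ n U) :=
    mul_nonneg (sq_nonneg _) (add_nonneg (Nat.cast_nonneg _) (LL_nonneg μ n U))
  refine le_trans ?_ (show 3 * _ + 3 * _ + 3 * _ ≤ _ from (add_le_add (add_le_add
    (mul_le_mul_of_nonneg_left h1 zero_le_three) (mul_le_mul_of_nonneg_left h2 zero_le_three))
    (mul_le_mul_of_nonneg_left h3 zero_le_three)).trans (by rw [Bd]; linarith))
  simp only [Pc, mul_sum, ← sum_add_distrib]
  refine sum_le_sum fun m _ => sum_le_sum fun m' _ => ?_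
  split_ifs with e
  · have := mul_le_mul_of_nonneg_right (delta φ e) (pq_nonneg μ m m')
    linarith
  · simp

end Pool.Agent.MP_151d89_pr.H27
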