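import Pool.Agent.MP_151d89_pr.H67E.Spec
import Pool.Agent.MP_151d89_pr.H35.Flip

/-!
The pairs in which the up tower ends one step after the end of the down tower.
-/

set_option autoImplicit false
open MeasureTheory Finset

namespace Pool.Agent.MP_151d89_pr.H27
open Pool.Agent.MP_151d89_pr.H82 Pool.Agent.MP_151d89_pr.H33 Pool.Agent.MP_151d89_pr.H67
  Pool.Agent.MP_151d89_pr.H30 Pool.Agent.MP_151d89_pr.H45 Pool.Agent.MP_151d89_pr.H67E
open Pool.Agent.MP_151d89_pr.H30W (Hi Lo)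
open Classical

namespace XR7

variable {μ : Measure Conf} {φ : ℤ × ℤ → ℝ} {U : Finset (ℤ × ℤ)} {lam TV : ℝ}
  {A : Bool → ℤ × ℤ → ℝ}

/-- the tower without its last site -/
def it (m : Mv) : Mv := (m.1, m.2.1, m.2.2 - 1)

/-- the weight at the end of a tower -/
noncomputable def ge (φ : ℤ × ℤ → ℝ) (m : Mv) : ℝ :=
  ww φ m.1 (pt m.1 m.2.1 m.2.2) ^ 2 + os φ m m.2.2 ^ 2

/-- towers with both ends in the box -/
noncomputable def JJ (n : ℕ) : Finset Mv := (TT n).filter fun m => nrm (pt m.1 m.2.1 m.2.2) ≤ n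

theorem ge_nonneg (φ : ℤ × ℤ → ℝ) (m : Mv) : 0 ≤ ge φ m := by unfold ge; positivity

theorem back (b : Bool) (x : ℤ × ℤ) (l : ℕ) : pt b (pt b x l) (-l) = x := by
  rw [NullP.pt_pt, add_neg_cancel, pt_zero]

theorem delta (φ : ℤ × ℤ → ℝ) {m m' : Mv} (h : R7 m m') : (ps φ m - ps φ m') ^ 2 ≤
    3 * ge φ m + 3 * if m'.2.2 = 0 then 0 else ge φ (it m') := by
  have a2 := os_nonneg φ m le_rfl
  have a3 := os_nonneg φ m' le_rfl
  have a4 := abs_le.1 (le_refl (ww φ m.1 (pt m.1 m.2.1 m.2.2)))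
  rw [os, h.2, NullP.pt_succ] at a3
  have a7 : 0 ≤ if m'.2.2 = 0 then 0 else ge φ (it m') := by
    split_ifs
    · exact le_rfl
    · exact ge_nonneg _ _
  rw [ge]
  set w := ww φ m.1 (pt m.1 m.2.1 m.2.2) with hw
  rcases le_total (ps φ m) (ps φ m') with e | e
  · have : (ps φ m' - ps φ m) ^ 2 ≤ (w + os φ m m.2.2) ^ 2 :=
      pow_le_pow_left₀ (by linarith) (by unfold os at *; linarith [a4.2]) 2
    nlinarith [sq_nonneg (w - os φ m m.2.2), sq_nonneg w, sq_nonneg (os φ m m.2.2)]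
  obtain ⟨t, ht, e1⟩ := ps_ex φ m'
  rcases ht.eq_or_lt with rfl | ht
  · rw [h.2, NullP.pt_succ] at e1
    have : (ps φ m - ps φ m') ^ 2 ≤ w ^ 2 :=
      pow_le_pow_left₀ (by linarith) (by unfold os at *; linarith [a4.1]) 2
    nlinarith [sq_nonneg w, sq_nonneg (os φ m m.2.2)]
  · have b1 : ps φ (it m') ≤ φ (pt m'.1 m'.2.1 t) := ps_le φ (it m') (by simp only [it]; omega)
    have b2 := abs_le.1 (le_refl (ww φ (it m').1 (pt (it m').1 (it m').2.1 (it m').2.2)))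
    have b3 : pt (it m').1 (it m').2.1 (it m').2.2 + dir (it m').1 =
        pt m.1 m.2.1 m.2.2 + dir m.1 := by
      rw [← NullP.pt_succ, ← NullP.pt_succ, ← h.2]
      simp only [it]
      congr 1
      omega
    rw [b3] at b2
    rw [if_neg (by omega), ge]
    set w' := ww φ (it m').1 (pt (it m').1 (it m').2.1 (it m').2.2) with hw'
    have : (ps φ m - ps φ m') ^ 2 ≤ (w + w' + os φ (it m') (it m').2.2) ^ 2 :=
      pow_le_pow_left₀ (by linarith) (by unfold os at *; linarith [a4.1, b2.2]) 2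
    nlinarith [sq_nonneg (w - w'), sq_nonneg (w - os φ (it m') (it m').2.2),
      sq_nonneg (w' - os φ (it m') (it m').2.2), sq_nonneg (os φ m m.2.2)]

theorem sumA (n : ℕ) (m : Mv) {h : Mv → ℝ} (h0 : ∀ m', 0 ≤ h m') :
    ∑ m' ∈ II n, (if R7 m m' then h m' else 0) ≤ ∑ l ∈ range (2 * n + 1),
      h (!m.1, pt (!m.1) (pt m.1 m.2.1 (m.2.2 + 1)) (-l), l) := by
  have k : ∀ m', (if R7 m m' then h m' else 0) ≠ 0 →
      m' = (!m.1, pt (!m.1) (pt m.1 m.2.1 (m.2.2 + 1)) (-m'.2.2), m'.2.2) := fun m' a => by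
    obtain ⟨e1, e2⟩ : R7 m m' := not_not.1 fun c => a (if_neg c)
    rw [← e1, ← e2, back]
  refine sum_inj _ _ (fun m' => m'.2.2) (fun a ha _ => mem_range.2 ?_)
    (fun a _ a' _ e e' e2 => by rw [k a e, k a' e', e2]) (fun a _ e => ?_) fun _ _ => h0 _
  · exact Nat.lt_succ_of_le (mem_TT.1 (II_TT ha)).2
  · rw [← k a e]
    split_ifs
    · exact le_rfl
    · exact h0 _

theorem sumB (n : ℕ) (m' : Mv) {h : Mv → ℝ} (h0 : ∀ m, 0 ≤ h m) :
    ∑ m ∈ II n, (if R7 m m' then h m else 0) ≤ ∑ l ∈ range (2 * n + 1),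
      h (!m'.1, pt (!m'.1) (pt m'.1 m'.2.1 m'.2.2 - dir (!m'.1)) (-l), l) := by
  have k : ∀ m, (if R7 m m' then h m else 0) ≠ 0 →
      m = (!m'.1, pt (!m'.1) (pt m'.1 m'.2.1 m'.2.2 - dir (!m'.1)) (-m.2.2), m.2.2) :=
    fun m a => by
      obtain ⟨e1, e2⟩ : R7 m m' := not_not.1 fun c => a (if_neg c)
      rw [e2, e1, Bool.not_not, NullP.pt_succ, add_sub_cancel_right, back]
  refine sum_inj _ _ (fun m => m.2.2) (fun a ha _ => mem_range.2 ?_)
    (fun a _ a' _ e e' e2 => by rw [k a e, k a' e', e2]) (fun a _ e => ?_) fun _ _ => h0 _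
  · exact Nat.lt_succ_of_le (mem_TT.1 (II_TT ha)).2
  · rw [← k a e]
    split_ifs
    · exact le_rfl
    · exact h0 _

theorem ends (h : Dat μ φ U lam TV A) (n : ℕ) :
    ∑ m ∈ JJ n, ge φ m * pp μ m ≤ 10 * (lam * TV) + QQ μ n φ := by
  have := h.gib.1
  simp only [ge, add_mul, sum_add_distrib]
  refine add_le_add ?_ ((sum_le_sum fun m _ => ?_).trans (sum_le_sum_of_subset_of_nonneg
    (filter_subset _ _) fun m _ _ => mul_nonneg (pp_nonneg μ m) (sum_nonneg fun _ _ => sq_nonneg _)))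
  · have h1 : ∀ (b : Bool) (y : ℤ × ℤ), ∑ l ∈ range (2 * n + 1),
        ww φ b y ^ 2 * pp μ (b, pt b y (-l), l) ≤ 5 * lam * ww φ b y := fun b y => by
      rw [← mul_sum]
      refine le_trans (mul_le_mul_of_nonneg_left ?_ (sq_nonneg _))
        (h.edge b y measureReal_nonneg measureReal_le_one (h.a0' (!b) y))
      refine le_trans (sum_le_sum fun l _ => ?_) (H35.up_disj h.gib b y _ (meas_Lo (!b) y).compl)
      refine (p_rev h.gib _).trans_le (measureReal_mono fun f a => ⟨fun c => ?_, a⟩)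
      have a1 := (av_vly a).1.2.2.1
      simp only [Lo] at c
      omega
    refine (sum_inj (JJ n) (TT n) (fun m : Mv => ((m.1, pt m.1 m.2.1 m.2.2, m.2.2) : Mv))
      (g := fun m : Mv => ww φ m.1 (pt m.1 m.2.1 m.2.2) ^ 2 * pp μ m)
      (h := fun m : Mv => ww φ m.1 m.2.1 ^ 2 * pp μ (m.1, pt m.1 m.2.1 (-m.2.2), m.2.2))
      (fun m hm _ => mem_TT.2 ⟨(mem_filter.1 hm).2, (mem_TT.1 (mem_filter.1 hm).1).2⟩)
      (fun m _ m' _ _ _ e => ?_) (fun m _ _ => by simp only [back]; exact le_rfl)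
      fun m _ => mul_nonneg (sq_nonneg _) (pp_nonneg μ _)).trans ?_
    · obtain ⟨b, x, l⟩ := m
      obtain ⟨b', x', l'⟩ := m'
      simp only [Prod.mk.injEq] at e ⊢
      obtain ⟨rfl, e1, rfl⟩ := e
      exact ⟨rfl, by rw [← back b x l, e1, back], rfl⟩
    · rw [TT, sum_product]
      simp only [sum_product]
      refine (sum_le_sum (g := fun _ => 5 * (lam * TV)) fun b _ =>
        (sum_le_sum fun x _ => h1 b x).trans ?_).trans (by simp; linarith)
      rw [← mul_sum]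
      have a1 := mul_le_mul_of_nonneg_left (h.tv b (box 0 n)) h.lam0
      linarith
  · rw [mul_comm]
    exact mul_le_mul_of_nonneg_left (single_le_sum (f := fun t => os φ m t ^ 2)
      (fun _ _ => sq_nonneg _) (mem_range.2 (Nat.lt_succ_self _))) (pp_nonneg μ m)

theorem part1 (hμ : Gibbs μ) (φ : ℤ × ℤ → ℝ) (n : ℕ) : ∑ m ∈ II n, ∑ m' ∈ II n,
    (if R7 m m' then ge φ m * pq μ m m' else 0) ≤ ∑ m ∈ JJ n, ge φ m * pp μ m := by
  refine (sum_le_sum fun m _ => (sumA n m fun m' =>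
    mul_nonneg (ge_nonneg φ m) (pq_nonneg μ m m')).trans ?_).trans
    (sum_le_sum_of_subset_of_nonneg (fun m hm => mem_filter.2 ⟨II_TT hm, (mem_II.1 hm).2.2⟩)
      fun m _ _ => mul_nonneg (ge_nonneg φ m) (pp_nonneg μ m))
  rw [← mul_sum]
  exact mul_le_mul_of_nonneg_left (H35.up_disj hμ _ _ _ (meas_Av (-1) m)) (ge_nonneg φ m)

theorem part2 (hμ : Gibbs μ) (φ : ℤ × ℤ → ℝ) (n : ℕ) : ∑ m ∈ II n, ∑ m' ∈ II n,
    (if R7 m m' then (if m'.2.2 = 0 then 0 else ge φ (it m')) * pq μ m m' else 0) ≤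
      ∑ m ∈ JJ n, ge φ m * pp μ m := by
  have g0 : ∀ m' : Mv, 0 ≤ if m'.2.2 = 0 then 0 else ge φ (it m') := fun m' => by
    split_ifs
    · exact le_rfl
    · exact ge_nonneg _ _
  have k : ∀ m : Mv, (if m.2.2 = 0 then 0 else ge φ (it m)) * pp μ (it m) ≠ 0 → m.2.2 ≠ 0 :=
    fun m a c => a (by simp [c])
  rw [sum_comm]
  refine (sum_le_sum (g := fun m => (if m.2.2 = 0 then 0 else ge φ (it m)) * pp μ (it m))
    fun m _ => (sumB n m fun m' => mul_nonneg (g0 m) (pq_nonneg μ m' m)).trans ?_).trans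
    (sum_inj _ _ it (fun m hm a => ?_) (fun m _ m' _ a a' e => ?_) (fun m _ a => ?_) fun m _ =>
      mul_nonneg (ge_nonneg φ m) (pp_nonneg μ m))
  · rw [← mul_sum]
    obtain ⟨b, x, l⟩ := m
    obtain ⟨b, rfl⟩ : ∃ c, b = !c := ⟨!b, (Bool.not_not b).symm⟩
    cases l with
    | zero => simp
    | succ l =>
      refine mul_le_mul_of_nonneg_left ?_ (g0 _)
      simp only [Bool.not_not]
      exact (H35.pl7_init hμ b _ x l _ (by push_cast; rw [sub_add_cancel])).trans_eq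
        (p_rev hμ _).symm
  · have a2 := mem_TT.1 (II_TT hm)
    rw [mem_II] at hm
    have a3 := nrm_conv m.1 m.2.1 (t := m.2.2 - 1) (l := m.2.2) (by omega)
    exact mem_filter.2 ⟨mem_TT.2 ⟨a2.1, by simp only [it]; omega⟩, by simp only [it]; omega⟩
  · have a1 := k m a
    have a2 := k m' a'
    obtain ⟨b, x, l⟩ := m
    obtain ⟨b', x', l'⟩ := m'
    simp only [it, Prod.mk.injEq] at e a1 a2 ⊢
    exact ⟨e.1, e.2.1, by omega⟩
  · rw [if_neg (k m a)]

end XR7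

open XR7 in
theorem r7_row : PStmt R7 := by
  intro μ φ U lam TV A h n
  have h1 := (part1 h.gib φ n).trans (ends h n)
  have h2 := (part2 h.gib φ n).trans (ends h n)
  have h4 := QQ_nonneg μ n φ
  have h5 := mul_nonneg h.lam0 h.tv0
  have h6 : 0 ≤ lam ^ 2 * (U.card + LL μ n U) :=
    mul_nonneg (sq_nonneg _) (add_nonneg (Nat.cast_nonneg _) (LL_nonneg μ n U))
  refine le_trans ?_ (show 3 * _ + 3 * _ ≤ _ from (add_le_add
    (mul_le_mul_of_nonneg_left h1 zero_le_three) (mul_le_mul_of_nonneg_left h2 zero_le_three)).trans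
      (by rw [Bd]; linarith))
  simp only [Pc, mul_sum, ← sum_add_distrib]
  refine sum_le_sum fun m _ => sum_le_sum fun m' _ => ?_
  by_cases e : R7 m m'
  · have := mul_le_mul_of_nonneg_right (delta φ e) (pq_nonneg μ m m')
    simp only [if_pos e]
    linarith
  · simp [e]

end Pool.Agent.MP_151d89_pr.H27
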