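import Pool.Agent.MP_151d89_pr.H30.Core
import Pool.Agent.MP_151d89_pr.H30.Null
import Pool.Agent.MP_151d89_pr.H30.Dirac

/-!
The Mermin-Wagner argument with tower moves for a general cut-off: definitions and statements.
-/

set_option autoImplicit false
open MeasureTheory

namespace Pool.Agent.MP_151d89_pr.H27
open Pool.Agent.MP_151d89_pr.H82 Pool.Agent.MP_151d89_pr.H33 Pool.Agent.MP_151d89_pr.H67
open Pool.Agent.MP_151d89_pr.H30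
open Classical

/-- all towers inside the box of radius n; single sites are counted once -/
noncomputable def II (n : ℕ) : Finset Mv :=
  (Finset.univ ×ˢ box 0 n ×ˢ Finset.range (2 * n + 1)).filter fun m =>
    (m.1 = true ∨ 1 ≤ m.2.2) ∧ nrm (pt m.1 m.2.1 m.2.2) ≤ n

/-- the weighted drift -/
noncomputable def SG (n : ℕ) (ψ : Mv → ℝ) (f : Conf) : ℝ := ∑ m ∈ II n, ψ m * dr m f

/-- a ridge leg: a run of l steps from x whose first site has its other three neighbours lower -/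
def Rdg (b : Bool) (x : ℤ × ℤ) (l : ℕ) (f : Conf) : Prop :=
  Run b x l f ∧ f (x - dir b) = f x - 1 ∧ f (x + dir (!b)) = f x - 1 ∧ f (x - dir (!b)) = f x - 1

/-- a valley leg: a run of l steps ending at y whose last site has its other neighbours higher -/
def Vly (b : Bool) (y : ℤ × ℤ) (l : ℕ) (f : Conf) : Prop :=
  Run b (pt b y (-l)) l f ∧ f (y + dir b) = f y + 1 ∧ f (y + dir (!b)) = f y + 1 ∧
    f (y - dir (!b)) = f y + 1

/-- a ridge leg from D comes within distance one of the complement of U -/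
def Bad1 (D U : Set (ℤ × ℤ)) (f : Conf) : Prop :=
  ∃ x ∈ D, ∃ b l, Rdg b x l f ∧ ∃ y ∈ box (pt b x l) 1, y ∉ U

/-- a ridge leg from U or a valley leg ending in U leaves the box of radius n -/
def Bad2 (U : Set (ℤ × ℤ)) (n : ℕ) (f : Conf) : Prop :=
  ∃ z ∈ U, ∃ b l, (Rdg b z l f ∧ (n : ℤ) < nrm (pt b z l)) ∨
    (Vly b z l f ∧ (n : ℤ) < nrm (pt b z (-l)))

/-- the list of positions of an up tower m' next to a down tower m -/
def PL (m m' : Mv) : Prop :=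
  (m'.1 = m.1 ∧ (m'.2.1 = pt m.1 m.2.1 (m.2.2 + 1) ∨ pt m.1 m'.2.1 (m'.2.2 + 1) = m.2.1 ∨
    ∃ i : ℕ, i ≤ m'.2.2 ∧ m'.2.2 ≤ i + m.2.2 ∧ (pt m.1 m'.2.1 i = m.2.1 + dir (!m.1) ∨
      pt m.1 m'.2.1 i = m.2.1 - dir (!m.1)))) ∨
  (m'.1 = !m.1 ∧ (m'.2.1 = m.2.1 + dir m'.1 ∨ pt m'.1 m'.2.1 (m'.2.2 + 1) = m.2.1 ∨
    pt m'.1 m'.2.1 m'.2.2 = pt m.1 m.2.1 (-1) ∨
      pt m'.1 m'.2.1 m'.2.2 = pt m.1 m.2.1 (m.2.2 + 1)))

/-- the pair energy -/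
noncomputable def Pair (μ : Measure Conf) (n : ℕ) (ψ : Mv → ℝ) : ℝ :=
  ∑ m ∈ II n, ∑ m' ∈ II n,
    if PL m m' then (ψ m - ψ m') ^ 2 * μ.real {f | Av (-1) m f ∧ Av 1 m' f} else 0

/-- no infinite run in the two directions, forwards or backwards -/
def NoRay (μ : Measure Conf) : Prop :=
  ∀ᵐ f ∂μ, ∀ b x, (∃ l : ℕ, ¬ Run b x l f) ∧ ∃ l : ℕ, ¬ Run b (pt b x (-l)) l f

/-- Row Energy: the second moment of the weighted drift -/
def EnStmt : Prop :=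
  ∀ μ : Measure Conf, Gibbs μ → ∀ (n : ℕ) (ψ : Mv → ℝ) (D U : Set (ℤ × ℤ)),
    (∀ m, |ψ m| ≤ 1) → (∀ m, ψ m ≠ 0 → m.2.1 ∈ D) → (∀ y ∈ U, nrm y < n) →
      ∫ f, SG n ψ f ^ 2 ∂μ ≤ Pair μ n ψ +
        2 * (II n).card ^ 2 * (μ.real {f | Bad1 D U f} + 2 * μ.real {f | Bad2 U n f})

/-- Row Core: bounded second moments force a point mass -/
def CoreStmt : Prop :=
  ∀ μ : Measure Conf, Gibbs μ → Triv μ → NoRay μ → ∀ E : ℝ,
    (∀ r : ℕ, ∃ (n : ℕ) (ψ : Mv → ℝ), r ≤ n ∧ (∀ m, 0 ≤ ψ m ∧ ψ m ≤ 1) ∧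
      (∀ m, (∀ y ∈ tow m, nrm y ≤ r) → ψ m = 1) ∧ ∫ f, SG n ψ f ^ 2 ∂μ ≤ E) →
    ∃ f₀ : Conf, ∀ᵐ f ∂μ, f = f₀

end Pool.Agent.MP_151d89_pr.H27
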